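import Pool.Agent.W5h2.DP.Defs

/-! (E1) numerics for (R) -/

set_option autoImplicit false

namespace Pool.Agent.W5h2.DP

theorem e1 : S_E1 := by
  refine ⟨4000, fun q n hq hn => ?_⟩
  have hq0 : (0 : ℝ) < q := by exact_mod_cast (by omega : 0 < q)
  have hq2 : (2 : ℝ) ≤ q := by exact_mod_cast hq
  have hnR : (n : ℝ) = (q : ℝ) ^ 2 + q + 1 := by rw [hn]; push_cast; ring
  have hn0 : (0 : ℝ) < n := by rw [hnR]; positivity
  have hn4 : (n : ℝ) + 1 ≤ 4 * (q : ℝ) ^ 2 := by rw [hnR]; nlinarith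
  have hn7 : (7 : ℝ) ≤ n := by rw [hnR]; nlinarith
  have hs2 : Real.sqrt q ^ 2 = q := Real.sq_sqrt hq0.le
  have hs1 : 1 ≤ Real.sqrt q := by
    rw [Real.one_le_sqrt]; linarith
  have hs0 : 0 < Real.sqrt q := by linarith
  have h32 : (q : ℝ) ^ (3 / 2 : ℝ) = q * Real.sqrt q := by
    rw [Real.sqrt_eq_rpow, ← Real.rpow_one_add' hq0.le (by norm_num)]
    norm_num
  -- the two numbers
  obtain ⟨s, hs⟩ : ∃ s : ℕ, s = ⌈2 * Real.sqrt q * (q + 1)⌉₊ := ⟨_, rfl⟩
  obtain ⟨J, hJ⟩ : ∃ J : ℕ, J = ⌈2 * n / ((q : ℝ) + 1) * Real.log n⌉₊ + 1 := ⟨_, rfl⟩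
  have hlogn : 0 < Real.log n := Real.log_pos (by linarith)
  have hsl : 2 * Real.sqrt q * (q + 1) ≤ s := by rw [hs]; exact Nat.le_ceil _
  have hsu : (s : ℝ) ≤ 2 * Real.sqrt q * (q + 1) + 1 := by
    rw [hs]; exact (Nat.ceil_lt_add_one (by positivity)).le
  have hJl : 2 * n / ((q : ℝ) + 1) * Real.log n < J := by
    rw [hJ]; push_cast
    have := Nat.le_ceil (2 * n / ((q : ℝ) + 1) * Real.log n)
    linarith
  have hJu : (J : ℝ) ≤ 2 * n / ((q : ℝ) + 1) * Real.log n + 2 := by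
    rw [hJ]; push_cast
    have := (Nat.ceil_lt_add_one (a := 2 * n / ((q : ℝ) + 1) * Real.log n) (by positivity)).le
    linarith
  have hnq : (n : ℝ) / ((q : ℝ) + 1) ≤ q + 1 := by
    rw [div_le_iff₀ (by positivity), hnR]; nlinarith
  refine ⟨s, J, ?_, ?_, ?_⟩
  · have h1 : (4 * q * n ^ 2 : ℝ) ≤ (s : ℝ) ^ 2 * ((q : ℝ) + 1) ^ 2 := by
      have h2 : (n : ℝ) ≤ ((q : ℝ) + 1) ^ 2 := by rw [hnR]; nlinarith
      have h3 : 2 * Real.sqrt q * n ≤ s * ((q : ℝ) + 1) := by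
        calc 2 * Real.sqrt q * n ≤ 2 * Real.sqrt q * ((q : ℝ) + 1) ^ 2 :=
              mul_le_mul_of_nonneg_left h2 (by positivity)
          _ = 2 * Real.sqrt q * (q + 1) * ((q : ℝ) + 1) := by ring
          _ ≤ s * ((q : ℝ) + 1) := mul_le_mul_of_nonneg_right hsl (by positivity)
      calc (4 * q * n ^ 2 : ℝ) = (2 * Real.sqrt q * n) ^ 2 := by
            rw [mul_pow, mul_pow, hs2]; ring
        _ ≤ (s * ((q : ℝ) + 1)) ^ 2 := pow_le_pow_left₀ (by positivity) h3 2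
        _ = (s : ℝ) ^ 2 * ((q : ℝ) + 1) ^ 2 := by ring
    exact_mod_cast h1
  · have hx0 : 0 ≤ 1 - ((q : ℝ) + 1) / (2 * n) := by
      rw [sub_nonneg, div_le_one (by positivity)]
      rw [hnR]; nlinarith
    have hx1 : 1 - ((q : ℝ) + 1) / (2 * n) ≤ Real.exp (-(((q : ℝ) + 1) / (2 * n))) := by
      have := Real.add_one_le_exp (-(((q : ℝ) + 1) / (2 * n)))
      linarith
    have h1 : (1 - ((q : ℝ) + 1) / (2 * n)) ^ J ≤ Real.exp (-(((q : ℝ) + 1) / (2 * n)) * J) := by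
      calc (1 - ((q : ℝ) + 1) / (2 * n)) ^ J ≤ Real.exp (-(((q : ℝ) + 1) / (2 * n))) ^ J :=
            pow_le_pow_left₀ hx0 hx1 J
        _ = Real.exp (-(((q : ℝ) + 1) / (2 * n)) * J) := by
            rw [← Real.exp_nat_mul]; congr 1; ring
    have h2 : -(((q : ℝ) + 1) / (2 * n)) * J < - Real.log n := by
      have h3 : ((q : ℝ) + 1) / (2 * n) * (2 * n / ((q : ℝ) + 1) * Real.log n) = Real.log n := by
        field_simp
      have h4 : ((q : ℝ) + 1) / (2 * n) * (2 * n / ((q : ℝ) + 1) * Real.log n) <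
          ((q : ℝ) + 1) / (2 * n) * J := mul_lt_mul_of_pos_left hJl (by positivity)
      rw [h3] at h4
      linarith
    have h5 : (1 - ((q : ℝ) + 1) / (2 * n)) ^ J < (n : ℝ)⁻¹ := by
      refine lt_of_le_of_lt h1 ?_
      calc Real.exp (-(((q : ℝ) + 1) / (2 * n)) * J) < Real.exp (- Real.log n) :=
            Real.exp_lt_exp.2 h2
        _ = (n : ℝ)⁻¹ := by rw [Real.exp_neg, Real.exp_log hn0]
    calc (1 - ((q : ℝ) + 1) / (2 * n)) ^ J * n < (n : ℝ)⁻¹ * n :=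
          mul_lt_mul_of_pos_right h5 hn0
      _ = 1 := inv_mul_cancel₀ hn0.ne'
  · -- log n, log (n+1) ≤ 8 (4 q^2)^(1/8)
    have hN0 : (0 : ℝ) < n + 1 := by positivity
    obtain ⟨R, hR⟩ : ∃ R : ℝ, R = (4 * (q : ℝ) ^ 2) ^ (1 / 8 : ℝ) := ⟨_, rfl⟩
    have hR0 : 0 < R := by rw [hR]; exact Real.rpow_pos_of_pos (by positivity) _
    have hRR : R * R ≤ 2 * Real.sqrt q := by
      have h1 : R * R = (4 * (q : ℝ) ^ 2) ^ (1 / 4 : ℝ) := by
        rw [hR, ← Real.rpow_add (by positivity)]; norm_num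
      have h2 : (4 * (q : ℝ) ^ 2) = (2 * (q : ℝ)) ^ (2 : ℝ) := by
        rw [Real.rpow_two]; ring
      rw [h1, h2, ← Real.rpow_mul (by positivity), Real.mul_rpow (by norm_num) hq0.le,
        Real.sqrt_eq_rpow]
      have h3 : (2 : ℝ) * (1 / 4) = 1 / 2 := by norm_num
      rw [h3]
      refine mul_le_mul_of_nonneg_right ?_ (by positivity)
      calc (2 : ℝ) ^ (1 / 2 : ℝ) ≤ 2 ^ (1 : ℝ) :=
            Real.rpow_le_rpow_of_exponent_le (by norm_num) (by norm_num)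
        _ = 2 := Real.rpow_one 2
    have hl1 : Real.log (n + 1) ≤ 8 * R := by
      have h1 := Real.log_le_rpow_div hN0.le (by norm_num : (0 : ℝ) < 1 / 8)
      have h2 : ((n : ℝ) + 1) ^ (1 / 8 : ℝ) ≤ R := by
        rw [hR]; exact Real.rpow_le_rpow hN0.le hn4 (by norm_num)
      calc Real.log (n + 1) ≤ ((n : ℝ) + 1) ^ (1 / 8 : ℝ) / (1 / 8) := h1
        _ = 8 * ((n : ℝ) + 1) ^ (1 / 8 : ℝ) := by ring
        _ ≤ 8 * R := by linarith
    have hl0 : Real.log n ≤ Real.log (n + 1) := Real.log_le_log hn0 (by linarith)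
    have hlp : 0 ≤ Real.log (n + 1) := by linarith
    have hl1' : 1 ≤ Real.log (n + 1) := by
      rw [Real.le_log_iff_exp_le hN0]
      have := Real.exp_one_lt_d9
      linarith
    have hb : Real.logb 2 (n + 1) ≤ 2 * Real.log (n + 1) := by
      rw [Real.logb, div_le_iff₀ (Real.log_pos (by norm_num))]
      have := Real.log_two_gt_d9
      nlinarith
    have hb0 : 0 ≤ Real.logb 2 (n + 1) := Real.logb_nonneg (by norm_num) (by linarith)
    have hJ2 : (J : ℝ) ≤ 4 * (q + 1) * Real.log (n + 1) := by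
      have h1 : 2 * n / ((q : ℝ) + 1) * Real.log n ≤ 2 * (q + 1) * Real.log (n + 1) := by
        refine mul_le_mul ?_ hl0 hlogn.le (by positivity)
        rw [mul_div_assoc]; linarith
      have h2 : (2 : ℝ) ≤ 2 * (q + 1) * Real.log (n + 1) := by nlinarith
      linarith
    have hLL : Real.log (n + 1) * Real.log (n + 1) ≤ 128 * Real.sqrt q := by
      calc Real.log (n + 1) * Real.log (n + 1) ≤ 8 * R * (8 * R) :=
            mul_le_mul hl1 hl1 hlp (by positivity)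
        _ = 64 * (R * R) := by ring
        _ ≤ 128 * Real.sqrt q := by linarith
    have hmain : (J : ℝ) * Real.logb 2 (n + 1) ≤ 8 * (q + 1) * (128 * Real.sqrt q) := by
      calc (J : ℝ) * Real.logb 2 (n + 1) ≤
            4 * (q + 1) * Real.log (n + 1) * (2 * Real.log (n + 1)) :=
            mul_le_mul hJ2 hb hb0 (by positivity)
        _ = 8 * (q + 1) * (Real.log (n + 1) * Real.log (n + 1)) := by ring
        _ ≤ 8 * (q + 1) * (128 * Real.sqrt q) := mul_le_mul_of_nonneg_left hLL (by positivity)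
    rw [h32]
    have hq1 : (q : ℝ) + 1 ≤ 3 / 2 * q := by linarith
    have h5 : (q + 1) * Real.sqrt q ≤ 3 / 2 * q * Real.sqrt q :=
      mul_le_mul_of_nonneg_right hq1 hs0.le
    have h6 : 1 ≤ (q : ℝ) * Real.sqrt q := by
      calc (1 : ℝ) = 1 * 1 := by ring
        _ ≤ q * Real.sqrt q := mul_le_mul (by linarith) hs1 (by norm_num) hq0.le
    have h7 : 2 * Real.sqrt q * (q + 1) = 2 * ((q + 1) * Real.sqrt q) := by ring
    have h8 : 8 * (q + 1) * (128 * Real.sqrt q) = 1024 * ((q + 1) * Real.sqrt q) := by ring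
    have h9 : 3 / 2 * q * Real.sqrt q = 3 / 2 * (q * Real.sqrt q) := by ring
    rw [h7] at hsu
    rw [h8] at hmain
    rw [h9] at h5
    linarith

end Pool.Agent.W5h2.DP
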