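import Pool.Agent.W5h2.DP.Defs

/-! (E2) numerics for (M) -/

set_option autoImplicit false

namespace Pool.Agent.W5h2.DP

theorem e2 : S_E2 := by
  refine ⟨48, fun q n t hq hn ht => ?_⟩
  have hq0 : (0 : ℝ) < q := by exact_mod_cast (by omega : 0 < q)
  have hq2 : (2 : ℝ) ≤ q := by exact_mod_cast hq
  have hnR : (n : ℝ) = (q : ℝ) ^ 2 + q + 1 := by rw [hn]; push_cast; ring
  have h32 : ((q : ℝ) ^ (3 / 2 : ℝ)) ^ 2 = (q : ℝ) ^ 3 := by
    rw [← Real.rpow_natCast, ← Real.rpow_mul hq0.le, ← Real.rpow_natCast (q : ℝ) 3]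
    norm_num
  have hp : 0 < (q : ℝ) ^ (3 / 2 : ℝ) := Real.rpow_pos_of_pos hq0 _
  have ht' : (t : ℝ) ^ 2 ≤ 4 * q * n := by exact_mod_cast ht
  have hn4 : (n : ℝ) + 1 ≤ 4 * (q : ℝ) ^ 2 := by rw [hnR]; nlinarith
  have ht1 : (t : ℝ) ≤ 4 * (q : ℝ) ^ (3 / 2 : ℝ) := by
    refine abs_le_of_sq_le_sq' ?_ (by positivity) |>.2
    calc (t : ℝ) ^ 2 ≤ 4 * q * n := ht'
      _ ≤ 4 * q * (4 * (q : ℝ) ^ 2) := by
          refine mul_le_mul_of_nonneg_left (by linarith) (by positivity)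
      _ = (4 * (q : ℝ) ^ (3 / 2 : ℝ)) ^ 2 := by rw [mul_pow, h32]; ring
  have hn1 : (0 : ℝ) < (n : ℝ) + 1 := by positivity
  have hl1 : Real.logb 2 (n + 1) ≤ 4 * Real.logb 2 q := by
    have h1 : Real.logb 2 (n + 1) ≤ Real.logb 2 (4 * (q : ℝ) ^ 2) :=
      Real.logb_le_logb_of_le (by norm_num) hn1 hn4
    have h2 : Real.logb 2 (4 * (q : ℝ) ^ 2) ≤ Real.logb 2 ((q : ℝ) ^ 4) := by
      refine Real.logb_le_logb_of_le (by norm_num) (by positivity) ?_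
      nlinarith [mul_le_mul hq2 hq2 (by norm_num) hq0.le, sq_nonneg (q : ℝ)]
    rw [Real.logb_pow] at h2
    push_cast at h2
    linarith
  have hl0 : 0 ≤ Real.logb 2 q := Real.logb_nonneg (by norm_num) (by linarith)
  have hl3 : 0 ≤ Real.logb 2 (n + 1) := Real.logb_nonneg (by norm_num) (by
    have : (0 : ℝ) ≤ n := Nat.cast_nonneg n
    linarith)
  calc 3 * t * Real.logb 2 (n + 1) ≤ 3 * (4 * (q : ℝ) ^ (3 / 2 : ℝ)) * (4 * Real.logb 2 q) := by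
        refine mul_le_mul (by linarith) hl1 hl3 (by positivity)
    _ = 48 * (q : ℝ) ^ (3 / 2 : ℝ) * Real.logb 2 q := by ring

end Pool.Agent.W5h2.DP
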