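import Pool.Agent.W5h2.DP.Defs

set_option autoImplicit false

namespace Pool.Agent.W5h2.DP

open Finset Configuration

open Classical in
theorem h (hv : S_V) : S_H := by
  intro P L _ _ _ _ q n hq hn A B hAB
  by_contra hcon
  push Not at hcon
  have hV := hv P L q n hq hn A
  -- sum over B of |l ∩ A| = sum over A of deg_B
  have hdc : ∑ l ∈ B, (A.filter fun p => p ∈ l).card = ∑ a ∈ A, (B.filter fun l => a ∈ l).card := by
    simp only [Finset.card_filter]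
    exact Finset.sum_comm
  have hdcR : ∑ l ∈ B, ((A.filter fun p => p ∈ l).card : ℝ) =
      ∑ a ∈ A, ((B.filter fun l => a ∈ l).card : ℝ) := by
    exact_mod_cast hdc
  have hdeg : ∑ a ∈ A, (2 * (n : ℝ) * ((B.filter fun l => a ∈ l).card : ℝ)) ≤
      ∑ a ∈ A, ((B.card : ℝ) * ((q : ℝ) + 1)) := by
    apply Finset.sum_le_sum
    intro a ha
    have := (hcon a ha).le
    exact_mod_cast this
  rw [← Finset.mul_sum, ← hdcR, Finset.sum_const, nsmul_eq_mul] at hdeg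
  set f : L → ℝ := fun l => (n : ℝ) * ((A.filter fun p => p ∈ l).card : ℝ) -
    (A.card : ℝ) * ((q : ℝ) + 1) with hf
  have hsum : ∑ l ∈ B, f l = (n : ℝ) * ∑ l ∈ B, ((A.filter fun p => p ∈ l).card : ℝ) -
      (B.card : ℝ) * ((A.card : ℝ) * ((q : ℝ) + 1)) := by
    rw [hf, Finset.sum_sub_distrib, Finset.sum_const, nsmul_eq_mul, Finset.mul_sum]
  have hneg : ∑ l ∈ B, f l ≤ -((A.card : ℝ) * B.card * (q + 1) / 2) := by
    rw [hsum]; linarith
  have hCS : (∑ l ∈ B, f l) ^ 2 ≤ (B.card : ℝ) * ∑ l ∈ B, f l ^ 2 := by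
    exact sq_sum_le_card_mul_sum_sq
  have hsub : ∑ l ∈ B, f l ^ 2 ≤ ∑ l : L, f l ^ 2 :=
    Finset.sum_le_sum_of_subset_of_nonneg (Finset.subset_univ _) (fun _ _ _ => sq_nonneg _)
  have hV' : ∑ l : L, f l ^ 2 = (n : ℝ) * q * A.card * (n - A.card) := hV
  have hABR : 4 * (q : ℝ) * n ^ 2 < (A.card : ℝ) * B.card * (q + 1) ^ 2 := by exact_mod_cast hAB
  have hA0 : (0 : ℝ) ≤ A.card := Nat.cast_nonneg _
  have hB0 : (0 : ℝ) ≤ B.card := Nat.cast_nonneg _
  have hq0 : (0 : ℝ) ≤ q := Nat.cast_nonneg _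
  have hn0 : (0 : ℝ) ≤ n := Nat.cast_nonneg _
  have hAB0 : 0 < (A.card : ℝ) * B.card := by
    by_contra hc
    have : (A.card : ℝ) * B.card = 0 := le_antisymm (not_lt.1 hc) (by positivity)
    rw [this] at hABR
    have : (0 : ℝ) ≤ 4 * (q : ℝ) * n ^ 2 := by positivity
    linarith
  have h1 : ((A.card : ℝ) * B.card * (q + 1) / 2) ^ 2 ≤ (∑ l ∈ B, f l) ^ 2 := by
    have hp : 0 ≤ (A.card : ℝ) * B.card * (q + 1) / 2 := by positivity
    nlinarith
  have h2 : (B.card : ℝ) * ∑ l : L, f l ^ 2 ≤ (B.card : ℝ) * ((n : ℝ) * q * A.card * n) := by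
    apply mul_le_mul_of_nonneg_left _ hB0
    rw [hV']
    apply mul_le_mul_of_nonneg_left _ (by positivity)
    linarith
  have h3 : ((A.card : ℝ) * B.card * (q + 1) / 2) ^ 2 ≤
      (B.card : ℝ) * ((n : ℝ) * q * A.card * n) :=
    h1.trans (hCS.trans ((mul_le_mul_of_nonneg_left hsub hB0).trans h2))
  have h4 : ((A.card : ℝ) * B.card) * ((A.card : ℝ) * B.card * (q + 1) ^ 2) ≤
      ((A.card : ℝ) * B.card) * (4 * (q : ℝ) * n ^ 2) := by
    nlinarith
  have h5 := le_of_mul_le_mul_left h4 hAB0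
  linarith

end Pool.Agent.W5h2.DP
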