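import Pool.Agent.W5h2.DP.Defs

/-!
# (I): independent dominating sets are minimal dominating sets
-/

set_option autoImplicit false

namespace Pool.Agent.W5h2.DP

open Finset Configuration

theorem i : S_I := by
  classical
  intro P L _ _ _ _
  refine Set.ncard_le_ncard ?_ (Set.toFinite _)
  rintro D ⟨h1, h2⟩
  refine ⟨h1, fun D' h3 h4 => ?_⟩
  constructor
  · intro p hp
    by_contra hp'
    obtain ⟨l, hl, hpl⟩ := h3.1 p hp'
    exact h2 p hp l (h4.2 hl) hpl
  · intro l hl
    by_contra hl'
    obtain ⟨p, hp, hpl⟩ := h3.2 l hl'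
    exact h2 p (h4.1 hp) l hl hpl

end Pool.Agent.W5h2.DP
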