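import Mathlib

/-!
# Dominating sets of projective planes (MP_eddf4b_co): definitions and pieces
-/

set_option autoImplicit false

namespace Pool.Agent.W5h2.DP

open Finset Configuration

section defs

variable (P L : Type) [Membership P L]

/-- A pair (set of points, set of lines) is dominating: every point not in it lies on a line of
it, every line not in it contains a point of it. -/
def Dom (D : Finset P × Finset L) : Prop :=
  (∀ p : P, p ∉ D.1 → ∃ l ∈ D.2, p ∈ l) ∧ ∀ l : L, l ∉ D.2 → ∃ p ∈ D.1, p ∈ l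

/-- No point of the set lies on a line of the set. -/
def Ind (D : Finset P × Finset L) : Prop := ∀ p ∈ D.1, ∀ l ∈ D.2, p ∉ l

/-- The number of independent dominating sets. -/
noncomputable def numInd : ℕ := {D : Finset P × Finset L | Dom P L D ∧ Ind P L D}.ncard

/-- The number of minimal dominating sets. -/
noncomputable def numMin : ℕ := {D : Finset P × Finset L | Minimal (Dom P L) D}.ncard

/-- Every point of `U` lies on a line which meets `U` in no other point. -/
def Tan (U : Finset P) : Prop := ∀ u ∈ U, ∃ l : L, u ∈ l ∧ ∀ u' ∈ U, u' ∈ l → u' = u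

end defs

open Classical in
/-- (V) variance of the intersection numbers with a set of points -/
def S_V : Prop := ∀ (P L : Type) [Fintype P] [Fintype L] [Membership P L] [ProjectivePlane P L]
  (q n : ℕ), q = ProjectivePlane.order P L → n = q ^ 2 + q + 1 → ∀ A : Finset P,
  ∑ l : L, ((n : ℝ) * ((A.filter fun p => p ∈ l).card : ℝ) - (A.card : ℝ) * ((q : ℝ) + 1)) ^ (2 : ℕ) =
    (n : ℝ) * q * A.card * (n - A.card)

open Classical in
/-- (H) a point of high degree -/
def S_H : Prop := ∀ (P L : Type) [Fintype P] [Fintype L] [Membership P L] [ProjectivePlane P L]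
  (q n : ℕ), q = ProjectivePlane.order P L → n = q ^ 2 + q + 1 →
  ∀ (A : Finset P) (B : Finset L), 4 * q * n ^ 2 < A.card * B.card * (q + 1) ^ 2 →
  ∃ a ∈ A, B.card * (q + 1) ≤ 2 * n * (B.filter fun l => a ∈ l).card

open Classical in
/-- (T) few points have a tangent to `X` -/
def S_T : Prop := ∀ (P L : Type) [Fintype P] [Fintype L] [Membership P L] [ProjectivePlane P L]
  (q n : ℕ), q = ProjectivePlane.order P L → n = q ^ 2 + q + 1 →
  ∀ (U : Finset P), Tan P L U → U.card ^ 2 ≤ 4 * q * n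

/-- (U) tangency sets give independent dominating sets -/
def S_U : Prop := ∀ (P L : Type) [Fintype P] [Fintype L] [Membership P L] [ProjectivePlane P L]
  (U : Finset P), Tan P L U → 2 ^ U.card ≤ numInd P L

/-- (I) independent dominating sets are minimal dominating sets -/
def S_I : Prop := ∀ (P L : Type) [Fintype P] [Fintype L] [Membership P L] [ProjectivePlane P L],
  numInd P L ≤ numMin P L

/-- (M) the number of minimal dominating sets -/
def S_M : Prop := ∀ (P L : Type) [Fintype P] [Fintype L] [Membership P L] [ProjectivePlane P L]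
  (t : ℕ), (∀ U : Finset P, Tan P L U → U.card ≤ t) →
  numMin P L ≤ (Fintype.card P + 1) ^ (3 * t)

/-- (R) container recursion -/
def S_R : Prop := ∀ (P L : Type) [Fintype P] [Fintype L] [Membership P L] [ProjectivePlane P L]
  (q n : ℕ), q = ProjectivePlane.order P L → n = q ^ 2 + q + 1 → ∀ s J : ℕ,
  4 * q * n ^ 2 ≤ s ^ 2 * (q + 1) ^ 2 → (1 - ((q : ℝ) + 1) / (2 * n)) ^ J * n < 1 →
  numInd P L ≤ 2 ^ s * (n + 1) ^ J

/-- (E1) numerics for (R) -/
def S_E1 : Prop := ∃ C : ℝ, ∀ q n : ℕ, 2 ≤ q → n = q ^ 2 + q + 1 → ∃ s J : ℕ,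
  4 * q * n ^ 2 ≤ s ^ 2 * (q + 1) ^ 2 ∧ (1 - ((q : ℝ) + 1) / (2 * n)) ^ J * n < 1 ∧
  s + J * Real.logb 2 (n + 1) ≤ C * (q : ℝ) ^ (3 / 2 : ℝ)

/-- (E2) numerics for (M) -/
def S_E2 : Prop := ∃ C : ℝ, ∀ q n t : ℕ, 2 ≤ q → n = q ^ 2 + q + 1 → t ^ 2 ≤ 4 * q * n →
  3 * t * Real.logb 2 (n + 1) ≤ C * (q : ℝ) ^ (3 / 2 : ℝ) * Real.logb 2 q

/-- (LB) uniform lower bound -/
def S_LB : Prop := ∃ c : ℝ, 0 < c ∧ ∃ q₀ : ℕ, ∀ (P L : Type) [Fintype P] [Fintype L]
  [Membership P L] [ProjectivePlane P L] (q : ℕ), q = ProjectivePlane.order P L → q₀ ≤ q →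
  c * q * Real.logb 2 q ^ 2 ≤ Real.logb 2 (numInd P L)

end Pool.Agent.W5h2.DP
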