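import Mathlib
import Pool.Agent.W5h2.DP.Defs

/-!
# (LB) uniform lower bound for the number of independent dominating sets
-/

set_option autoImplicit false

namespace Pool.Agent.W5h2.DP
namespace LBP

open Finset Configuration

/-- Bernoulli weight of a set -/
noncomputable def W {P : Type} [Fintype P] [DecidableEq P] (p : ℝ) (X : Finset P) : ℝ :=
  p ^ X.card * (1 - p) ^ (Fintype.card P - X.card)

section
variable {P : Type} [Fintype P] [DecidableEq P]

theorem W_nonneg {p : ℝ} (h0 : 0 ≤ p) (h1 : p ≤ 1) (X : Finset P) : 0 ≤ W p X := by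
  unfold W
  have : 0 ≤ 1 - p := by linarith
  positivity

/-- general product formula -/
theorem sum_prod (u v : P → ℝ) :
    ∑ X : Finset P, (∏ a ∈ X, u a) * ∏ a ∈ Xᶜ, v a = ∏ a : P, (u a + v a) := by
  rw [Finset.prod_add]
  simp only [Finset.powerset_univ, Finset.compl_eq_univ_sdiff]

theorem W_eq (p : ℝ) (X : Finset P) : W p X = (∏ _a ∈ X, p) * ∏ _a ∈ Xᶜ, (1 - p) := by
  unfold W
  rw [Finset.prod_const, Finset.prod_const, Finset.card_compl]

theorem sum_W (p : ℝ) : ∑ X : Finset P, W p X = 1 := by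
  have := sum_prod (P := P) (fun _ => p) (fun _ => 1 - p)
  simp only [W_eq, this]
  simp

/-- exponential moment -/
theorem sum_W_half (p : ℝ) :
    ∑ X : Finset P, W p X * (1 / 2 : ℝ) ^ X.card = (1 - p / 2) ^ Fintype.card P := by
  have := sum_prod (P := P) (fun _ => p * (1 / 2)) (fun _ => 1 - p)
  have h2 : ∀ X : Finset P, W p X * (1 / 2 : ℝ) ^ X.card
      = (∏ _a ∈ X, (p * (1 / 2))) * ∏ _a ∈ Xᶜ, (1 - p) := by
    intro X
    rw [W_eq, Finset.prod_const, Finset.prod_const, Finset.prod_const, mul_pow]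
    ring
  simp only [h2, this]
  rw [Finset.prod_const, Finset.card_univ]
  congr 1
  ring

/-- probability of missing a set -/
theorem sum_W_disj (p : ℝ) (U : Finset P) :
    ∑ X : Finset P, W p X * (if Disjoint X U then 1 else 0) = (1 - p) ^ U.card := by
  have := sum_prod (P := P) (fun a => if a ∈ U then 0 else p) (fun _ => 1 - p)
  have h2 : ∀ X : Finset P, W p X * (if Disjoint X U then 1 else 0)
      = (∏ a ∈ X, (if a ∈ U then 0 else p)) * ∏ _a ∈ Xᶜ, (1 - p) := by
    intro X
    rw [W_eq]
    split_ifs with h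
    · have : ∏ a ∈ X, (if a ∈ U then (0 : ℝ) else p) = ∏ _a ∈ X, p := by
        apply Finset.prod_congr rfl
        intro a ha
        rw [if_neg]
        exact Finset.disjoint_left.mp h ha
      rw [this, mul_one]
    · rw [Finset.not_disjoint_iff] at h
      obtain ⟨a, ha, hb⟩ := h
      have : ∏ a ∈ X, (if a ∈ U then (0 : ℝ) else p) = 0 := by
        apply Finset.prod_eq_zero ha
        rw [if_pos hb]
      rw [this, mul_zero, zero_mul]
  simp only [h2, this]
  have h3 : ∀ a : P, ((if a ∈ U then 0 else p) + (1 - p)) = if a ∈ U then (1 - p) else 1 := by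
    intro a
    split_ifs <;> ring
  simp only [h3]
  rw [Finset.prod_ite_mem]
  simp

/-- inclusion–exclusion: probability of hitting all members of a family of disjoint sets of
size `q` -/
theorem sum_W_hit {ι : Type} [DecidableEq ι] (p : ℝ) (T : Finset ι) (S : ι → Finset P) (q : ℕ)
    (hq : ∀ l ∈ T, (S l).card = q)
    (hd : ∀ l ∈ T, ∀ l' ∈ T, l ≠ l' → Disjoint (S l) (S l')) :
    ∑ X : Finset P, W p X * ∏ l ∈ T, (1 - (if Disjoint X (S l) then 1 else 0))
      = (1 - (1 - p) ^ q) ^ T.card := by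
  have h1 : ∀ X : Finset P, ∏ l ∈ T, ((1 : ℝ) - (if Disjoint X (S l) then 1 else 0))
      = ∑ t ∈ T.powerset, (-1 : ℝ) ^ t.card * (if Disjoint X (t.biUnion S) then 1 else 0) := by
    intro X
    have := Finset.prod_add (fun l : ι => -(if Disjoint X (S l) then (1 : ℝ) else 0))
      (fun _ => (1 : ℝ)) T
    have h2 : ∀ l : ι, (1 : ℝ) - (if Disjoint X (S l) then 1 else 0)
      = -(if Disjoint X (S l) then (1 : ℝ) else 0) + 1 := fun l => by ring
    simp only [h2, this]
    apply Finset.sum_congr rfl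
    intro t _
    rw [Finset.prod_const_one, mul_one]
    have h3 : ∀ l : ι, -(if Disjoint X (S l) then (1 : ℝ) else 0)
      = (-1) * (if Disjoint X (S l) then (1 : ℝ) else 0) := fun l => by ring
    simp only [h3]
    rw [Finset.prod_mul_distrib, Finset.prod_const]
    congr 1
    by_cases hh : Disjoint X (t.biUnion S)
    · rw [if_pos hh]
      apply Finset.prod_eq_one
      intro l hl
      rw [if_pos]
      rw [Finset.disjoint_biUnion_right] at hh
      exact hh l hl
    · rw [if_neg hh]
      rw [Finset.disjoint_biUnion_right] at hh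
      push Not at hh
      obtain ⟨l, hl, hl2⟩ := hh
      apply Finset.prod_eq_zero hl
      rw [if_neg hl2]
  simp only [h1, Finset.mul_sum]
  rw [Finset.sum_comm]
  have h4 : ∀ t ∈ T.powerset, ∑ X : Finset P, W p X * ((-1 : ℝ) ^ t.card *
      (if Disjoint X (t.biUnion S) then 1 else 0)) = (-1 : ℝ) ^ t.card * ((1 - p) ^ q) ^ t.card := by
    intro t ht
    rw [Finset.mem_powerset] at ht
    have h5 : (t.biUnion S).card = q * t.card := by
      rw [Finset.card_biUnion]
      · rw [Finset.sum_congr rfl (fun l hl => hq l (ht hl))]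
        simp [mul_comm]
      · intro l hl l' hl' hne
        exact hd l (ht hl) l' (ht hl') hne
    have h6 := sum_W_disj p (t.biUnion S)
    rw [h5, pow_mul] at h6
    rw [← h6, Finset.mul_sum]
    apply Finset.sum_congr rfl
    intro X _
    ring
  rw [Finset.sum_congr rfl h4]
  have h7 := Finset.prod_add (fun _ : ι => -((1 - p) ^ q)) (fun _ => (1 : ℝ)) T
  simp only [Finset.prod_const, mul_one, one_pow] at h7
  have h8 : (1 - (1 - p) ^ q) ^ T.card = (-(1 - p) ^ q + 1) ^ T.card := by ring
  rw [h8, h7]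
  apply Finset.sum_congr rfl
  intro t _
  rw [neg_pow ((1 - p) ^ q)]

end

section plane

open Classical in
/-- `X` is the point set of an independent dominating set -/
def Good (P L : Type) [Membership P L] (X : Finset P) : Prop :=
  ∀ x, x ∉ X → ∃ l : L, x ∈ l ∧ ∀ a ∈ X, a ∉ l

variable (P L : Type) [Fintype P] [Fintype L] [Membership P L] [ProjectivePlane P L]

omit [ProjectivePlane P L] in
open Classical in
theorem card_good_le :
    ((univ : Finset (Finset P)).filter (Good P L)).card ≤ numInd P L := by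
  unfold numInd
  rw [← Set.ncard_coe_finset]
  apply Set.ncard_le_ncard_of_injOn
    (fun X : Finset P => (X, (univ : Finset L).filter fun l => ∀ a ∈ X, a ∉ l))
  · intro X hX
    rw [Finset.mem_coe, Finset.mem_filter] at hX
    refine ⟨⟨?_, ?_⟩, ?_⟩
    · intro x hx
      obtain ⟨l, hl, hl2⟩ := hX.2 x hx
      exact ⟨l, by simpa using hl2, hl⟩
    · intro l hl
      simp only [Finset.mem_filter, Finset.mem_univ, true_and] at hl
      push Not at hl
      exact hl
    · intro a ha l hl
      simp only [Finset.mem_filter, Finset.mem_univ, true_and] at hl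
      exact hl a ha
  · intro X _ Y _ h
    exact (Prod.mk.inj h).1

open Classical in
/-- points of a line different from `x` -/
noncomputable def Sx (x : P) (l : L) : Finset P := ((univ : Finset P).filter (· ∈ l)).erase x

open Classical in
theorem card_Sx (q : ℕ) (hq : q = ProjectivePlane.order P L) (x : P) (l : L) (h : x ∈ l) :
    (Sx P L x l).card = q := by
  unfold Sx
  rw [Finset.card_erase_of_mem (by simpa using h)]
  have h1 := ProjectivePlane.pointCount_eq P l
  unfold pointCount at h1
  rw [Nat.card_eq_fintype_card, Fintype.card_subtype] at h1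
  rw [h1, hq]
  rfl

open Classical in
theorem card_T (q : ℕ) (hq : q = ProjectivePlane.order P L) (x : P) :
    ((univ : Finset L).filter (x ∈ ·)).card = q + 1 := by
  have h1 := ProjectivePlane.lineCount_eq L x
  unfold lineCount at h1
  rw [Nat.card_eq_fintype_card, Fintype.card_subtype] at h1
  rw [h1, hq]

omit [Fintype L] in
open Classical in
theorem disj_Sx (x : P) (l l' : L) (h : x ∈ l) (h' : x ∈ l') (hne : l ≠ l') :
    Disjoint (Sx P L x l) (Sx P L x l') := by
  rw [Finset.disjoint_left]
  intro a ha hb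
  unfold Sx at ha hb
  simp only [Finset.mem_erase, Finset.mem_filter, Finset.mem_univ, true_and] at ha hb
  rcases Nondegenerate.eq_or_eq ha.2 h hb.2 h' with h1 | h1
  · exact ha.1 h1
  · exact hne h1

open Classical in
theorem key (q n : ℕ) (hq : q = ProjectivePlane.order P L) (hn : n = q ^ 2 + q + 1) (p : ℝ)
    (h0 : 0 ≤ p) (h1 : p ≤ 1) (m : ℕ) :
    1 - n * (1 - (1 - p) ^ q) ^ (q + 1) - 2 ^ m * (1 - p / 2) ^ n ≤ (numInd P L : ℝ) * p ^ m := by
  have hcard : Fintype.card P = n := by
    rw [ProjectivePlane.card_points P L, hn, hq]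
  set T : P → Finset L := fun x => (univ : Finset L).filter (x ∈ ·) with hT
  have hb : ∀ x : P, ∑ X : Finset P, W p X * ∏ l ∈ T x, (1 - (if Disjoint X (Sx P L x l) then 1 else 0))
      = (1 - (1 - p) ^ q) ^ (q + 1) := by
    intro x
    have := sum_W_hit p (T x) (Sx P L x) q
      (fun l hl => card_Sx P L q hq x l (by simpa [hT] using hl))
      (fun l hl l' hl' hne => disj_Sx P L x l l' (by simpa [hT] using hl)
        (by simpa [hT] using hl') hne)
    rw [this, card_T P L q hq x]
  have hLHS : ∑ X : Finset P, W p X * (1 - (∑ x : P, ∏ l ∈ T x,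
      (1 - (if Disjoint X (Sx P L x l) then (1 : ℝ) else 0))) - 2 ^ m * (1 / 2 : ℝ) ^ X.card)
      = 1 - n * (1 - (1 - p) ^ q) ^ (q + 1) - 2 ^ m * (1 - p / 2) ^ n := by
    have e1 : ∀ X : Finset P, W p X * (1 - (∑ x : P, ∏ l ∈ T x,
      (1 - (if Disjoint X (Sx P L x l) then (1 : ℝ) else 0))) - 2 ^ m * (1 / 2 : ℝ) ^ X.card)
      = W p X - (∑ x : P, W p X * ∏ l ∈ T x,
      (1 - (if Disjoint X (Sx P L x l) then (1 : ℝ) else 0))) - 2 ^ m * (W p X * (1 / 2 : ℝ) ^ X.card) := by
      intro X
      rw [← Finset.mul_sum]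
      ring
    simp only [e1]
    rw [Finset.sum_sub_distrib, Finset.sum_sub_distrib, sum_W, Finset.sum_comm,
      ← Finset.mul_sum, sum_W_half, hcard]
    congr 2
    rw [Finset.sum_congr rfl (fun x _ => hb x)]
    rw [Finset.sum_const, Finset.card_univ, hcard, nsmul_eq_mul]
  rw [← hLHS]
  have hnn : ∀ (X : Finset P) (x : P), 0 ≤ ∏ l ∈ T x,
      (1 - (if Disjoint X (Sx P L x l) then (1 : ℝ) else 0)) := by
    intro X x
    apply Finset.prod_nonneg
    intro l _
    split_ifs <;> norm_num
  have hpt : ∀ X : Finset P, W p X * (1 - (∑ x : P, ∏ l ∈ T x,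
      (1 - (if Disjoint X (Sx P L x l) then (1 : ℝ) else 0))) - 2 ^ m * (1 / 2 : ℝ) ^ X.card)
      ≤ if Good P L X then p ^ m else 0 := by
    intro X
    have hs : 0 ≤ ∑ x : P, ∏ l ∈ T x,
      (1 - (if Disjoint X (Sx P L x l) then (1 : ℝ) else 0)) :=
      Finset.sum_nonneg (fun x _ => hnn X x)
    have hW := W_nonneg h0 h1 X
    have hh : (0 : ℝ) ≤ 2 ^ m * (1 / 2 : ℝ) ^ X.card := by positivity
    by_cases hm : X.card < m
    · -- small sets
      have h2 : (1 : ℝ) ≤ 2 ^ m * (1 / 2 : ℝ) ^ X.card := by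
        have : (2 : ℝ) ^ m * (1 / 2 : ℝ) ^ X.card = 2 ^ (m - X.card) := by
          have e : (2 : ℝ) ^ m = 2 ^ (m - X.card) * 2 ^ X.card := by
            rw [← pow_add]; congr 1; omega
          rw [e, mul_assoc, ← mul_pow]; norm_num
        rw [this]
        exact one_le_pow₀ (by norm_num)
      have h3 : W p X * (1 - (∑ x : P, ∏ l ∈ T x,
        (1 - (if Disjoint X (Sx P L x l) then (1 : ℝ) else 0))) - 2 ^ m * (1 / 2 : ℝ) ^ X.card) ≤ 0 :=
        mul_nonpos_of_nonneg_of_nonpos hW (by linarith)
      refine h3.trans ?_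
      split_ifs
      · positivity
      · exact le_rfl
    · push Not at hm
      by_cases hg : Good P L X
      · rw [if_pos hg]
        have hWm : W p X ≤ p ^ m := by
          unfold W
          calc p ^ X.card * (1 - p) ^ (Fintype.card P - X.card) ≤ p ^ X.card * 1 := by
                apply mul_le_mul_of_nonneg_left _ (by positivity)
                exact pow_le_one₀ (by linarith) (by linarith)
            _ = p ^ X.card := mul_one _
            _ ≤ p ^ m := pow_le_pow_of_le_one h0 h1 hm
        calc _ ≤ W p X * 1 := mul_le_mul_of_nonneg_left (by linarith) hW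
          _ = W p X := mul_one _
          _ ≤ p ^ m := hWm
      · rw [if_neg hg]
        apply mul_nonpos_of_nonneg_of_nonpos hW
        unfold Good at hg
        push Not at hg
        obtain ⟨x, hx, hx2⟩ := hg
        have h4 : ∏ l ∈ T x, (1 - (if Disjoint X (Sx P L x l) then (1 : ℝ) else 0)) = 1 := by
          apply Finset.prod_eq_one
          intro l hl
          rw [if_neg, sub_zero]
          obtain ⟨a, ha, hal⟩ := hx2 l (by simpa [hT] using hl)
          rw [Finset.not_disjoint_iff]
          refine ⟨a, ha, ?_⟩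
          unfold Sx
          simp only [Finset.mem_erase, Finset.mem_filter, Finset.mem_univ, true_and]
          exact ⟨fun h => hx (h ▸ ha), hal⟩
        have h5 : (1 : ℝ) ≤ ∑ x : P, ∏ l ∈ T x,
            (1 - (if Disjoint X (Sx P L x l) then (1 : ℝ) else 0)) := by
          refine h4.symm.le.trans ?_
          exact Finset.single_le_sum (f := fun x => ∏ l ∈ T x,
            (1 - (if Disjoint X (Sx P L x l) then (1 : ℝ) else 0))) (fun x _ => hnn X x)
            (Finset.mem_univ x)
        linarith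
  calc _ ≤ ∑ X : Finset P, if Good P L X then p ^ m else 0 := Finset.sum_le_sum (fun X _ => hpt X)
    _ = ((univ : Finset (Finset P)).filter (Good P L)).card * p ^ m := by
      rw [← Finset.sum_filter, Finset.sum_const, nsmul_eq_mul]
    _ ≤ (numInd P L : ℝ) * p ^ m := by
      apply mul_le_mul_of_nonneg_right _ (by positivity)
      exact_mod_cast card_good_le P L

end plane

/-! ### numerics -/

open Filter Topology

theorem exp_lower {p : ℝ} (h0 : 0 ≤ p) (h1 : p ≤ 1 / 2) : Real.exp (-(2 * p)) ≤ 1 - p := by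
  rw [Real.exp_neg]
  have h2 : 2 * p + 1 ≤ Real.exp (2 * p) := Real.add_one_le_exp _
  have h3 : (Real.exp (2 * p))⁻¹ ≤ (2 * p + 1)⁻¹ := inv_anti₀ (by linarith) h2
  refine h3.trans ?_
  rw [inv_le_iff_one_le_mul₀ (by linarith)]
  nlinarith

/-- (a): the union bound -/
theorem num_a : ∀ᶠ q : ℕ in atTop, ∀ n : ℕ, n = q ^ 2 + q + 1 →
    (n : ℝ) * (1 - (1 - Real.log q / (4 * q)) ^ q) ^ (q + 1) ≤ 1 / 4 := by
  have h1 : Tendsto (fun q : ℕ => 3 * (Real.sqrt q ^ 4 * Real.exp (-Real.sqrt q))) atTop (𝓝 (3 * 0)) := by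
    apply Tendsto.const_mul
    have h2 := Real.tendsto_pow_mul_exp_neg_atTop_nhds_zero 4
    have h3 : Tendsto (fun q : ℕ => Real.sqrt q) atTop atTop :=
      Real.tendsto_sqrt_atTop.comp tendsto_natCast_atTop_atTop
    exact h2.comp h3
  rw [mul_zero] at h1
  filter_upwards [h1.eventually (gt_mem_nhds (show (0 : ℝ) < 1 / 4 by norm_num)),
    eventually_ge_atTop 2] with q hq h2q n hn
  have hq1 : (2 : ℝ) ≤ q := by exact_mod_cast h2q
  have hlog0 : 0 ≤ Real.log q := Real.log_nonneg (by linarith)
  have hlogq : Real.log q ≤ q := (Real.log_le_sub_one_of_pos (by linarith)).trans (by linarith)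
  set p := Real.log q / (4 * q) with hp
  have hp0 : 0 ≤ p := by positivity
  have hp1 : p ≤ 1 / 4 := by
    rw [hp, div_le_iff₀ (by linarith)]; linarith
  have hs0 : 0 < Real.sqrt q := Real.sqrt_pos.mpr (by linarith)
  have hss : Real.sqrt q * Real.sqrt q = q := Real.mul_self_sqrt (by linarith)
  -- (1-p)^q ≥ 1/√q
  have e1 : 1 / Real.sqrt q ≤ (1 - p) ^ q := by
    have e2 : Real.exp (-(2 * p)) ^ q ≤ (1 - p) ^ q :=
      pow_le_pow_left₀ (Real.exp_pos _).le (exp_lower hp0 (by linarith)) q
    refine le_trans ?_ e2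
    rw [← Real.exp_nat_mul]
    have e3 : (q : ℝ) * -(2 * p) = -(Real.log q / 2) := by
      rw [hp]; field_simp; ring
    rw [e3, ← Real.log_sqrt (by linarith), Real.exp_neg, Real.exp_log hs0, one_div]
  have e4 : (0 : ℝ) ≤ 1 - (1 - p) ^ q := by
    have : (1 - p) ^ q ≤ 1 := pow_le_one₀ (by linarith) (by linarith)
    linarith
  have e5 : (1 - (1 - p) ^ q) ^ (q + 1) ≤ Real.exp (-Real.sqrt q) := by
    calc (1 - (1 - p) ^ q) ^ (q + 1) ≤ (Real.exp (-(1 / Real.sqrt q))) ^ (q + 1) := by
          apply pow_le_pow_left₀ e4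
          have := Real.one_sub_le_exp_neg (1 / Real.sqrt q)
          linarith
      _ = Real.exp (-(((q : ℝ) + 1) / Real.sqrt q)) := by
          rw [← Real.exp_nat_mul]; congr 1; push_cast; ring
      _ ≤ Real.exp (-Real.sqrt q) := by
          apply Real.exp_le_exp.mpr
          apply neg_le_neg
          rw [le_div_iff₀ hs0]; linarith
  have e6 : (n : ℝ) ≤ 3 * Real.sqrt q ^ 4 := by
    have : Real.sqrt q ^ 4 = (q : ℝ) ^ 2 := by
      calc Real.sqrt q ^ 4 = (Real.sqrt q * Real.sqrt q) ^ 2 := by ring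
        _ = _ := by rw [hss]
    rw [this, hn]; push_cast; nlinarith
  calc (n : ℝ) * (1 - (1 - p) ^ q) ^ (q + 1) ≤ (3 * Real.sqrt q ^ 4) * Real.exp (-Real.sqrt q) := by
        apply mul_le_mul e6 e5 (by positivity) (by positivity)
    _ = 3 * (Real.sqrt q ^ 4 * Real.exp (-Real.sqrt q)) := by ring
    _ ≤ 1 / 4 := hq.le

theorem tendsto_qlog : Tendsto (fun q : ℕ => (q : ℝ) * Real.log q) atTop atTop := by
  apply Tendsto.atTop_mul_atTop₀ tendsto_natCast_atTop_atTop
  exact Real.tendsto_log_atTop.comp tendsto_natCast_atTop_atTop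

/-- (b): few sets are small -/
theorem num_b : ∀ᶠ q : ℕ in atTop, ∀ n : ℕ, n = q ^ 2 + q + 1 →
    (2 : ℝ) ^ ⌊(q : ℝ) * Real.log q / 8⌋₊ * (1 - Real.log q / (4 * q) / 2) ^ n ≤ 1 / 4 := by
  filter_upwards [tendsto_qlog.eventually_ge_atTop 80, eventually_ge_atTop 2] with q hq h2q n hn
  have hq1 : (2 : ℝ) ≤ q := by exact_mod_cast h2q
  have hlog0 : 0 ≤ Real.log q := Real.log_nonneg (by linarith)
  have hlogq : Real.log q ≤ q := (Real.log_le_sub_one_of_pos (by linarith)).trans (by linarith)
  set p := Real.log q / (4 * q) with hp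
  have hp0 : 0 ≤ p := by positivity
  have hp1 : p ≤ 1 / 4 := by
    rw [hp, div_le_iff₀ (by linarith)]; linarith
  have hfl : (⌊(q : ℝ) * Real.log q / 8⌋₊ : ℝ) ≤ (q : ℝ) * Real.log q / 8 :=
    Nat.floor_le (by positivity)
  have hl2 : Real.log 2 < 0.6931471808 := Real.log_two_lt_d9
  have hl20 : 0 < Real.log 2 := Real.log_pos (by norm_num)
  have e1 : (2 : ℝ) ^ ⌊(q : ℝ) * Real.log q / 8⌋₊ ≤ Real.exp (Real.log 2 * (q * Real.log q / 8)) := by
    have : (2 : ℝ) ^ ⌊(q : ℝ) * Real.log q / 8⌋₊
        = Real.exp (Real.log 2 * ⌊(q : ℝ) * Real.log q / 8⌋₊) := by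
      rw [mul_comm (Real.log 2), Real.exp_nat_mul, Real.exp_log (by norm_num)]
    rw [this]
    exact Real.exp_le_exp.mpr (mul_le_mul_of_nonneg_left hfl hl20.le)
  have e2 : (1 - p / 2) ^ n ≤ Real.exp (-(q * Real.log q / 8)) := by
    calc (1 - p / 2) ^ n ≤ (Real.exp (-(p / 2))) ^ n := by
          apply pow_le_pow_left₀ (by linarith) (Real.one_sub_le_exp_neg _)
      _ = Real.exp (-(n * (p / 2))) := by rw [← Real.exp_nat_mul]; congr 1; ring
      _ ≤ Real.exp (-(q * Real.log q / 8)) := by
          apply Real.exp_le_exp.mpr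
          apply neg_le_neg
          have e3 : (q : ℝ) * Real.log q / 8 = q ^ 2 * (p / 2) := by
            rw [hp]; field_simp; ring
          rw [e3]
          apply mul_le_mul_of_nonneg_right _ (by positivity)
          rw [hn]; push_cast; nlinarith
  calc _ ≤ Real.exp (Real.log 2 * (q * Real.log q / 8)) * Real.exp (-(q * Real.log q / 8)) := by
        apply mul_le_mul e1 e2 _ (Real.exp_pos _).le
        apply pow_nonneg; linarith
    _ = Real.exp ((Real.log 2 - 1) * (q * Real.log q / 8)) := by
        rw [← Real.exp_add]; congr 1; ring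
    _ ≤ Real.exp (-2 * Real.log 2) := by
        apply Real.exp_le_exp.mpr
        nlinarith
    _ = 1 / 4 := by
        rw [show -2 * Real.log 2 = -(Real.log 2 + Real.log 2) by ring, Real.exp_neg, Real.exp_add,
          Real.exp_log (by norm_num)]
        norm_num

end LBP

open LBP Filter Configuration in
theorem lb : S_LB := by
  refine ⟨1 / 128, by norm_num, ?_⟩
  obtain ⟨q₀, hq₀⟩ := eventually_atTop.mp
    (num_a.and (num_b.and ((tendsto_qlog.eventually_ge_atTop 80).and (eventually_ge_atTop 4))))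
  refine ⟨q₀, ?_⟩
  intro P L _ _ _ _ q hqo hqq
  obtain ⟨ha, hb, hql, h4q⟩ := hq₀ q hqq
  have ha := ha _ rfl
  have hb := hb _ rfl
  have hq1 : (4 : ℝ) ≤ q := by exact_mod_cast h4q
  have hlogpos : 0 < Real.log q := Real.log_pos (by linarith)
  have hlogq : Real.log q ≤ q := (Real.log_le_sub_one_of_pos (by linarith)).trans (by linarith)
  set p := Real.log q / (4 * q) with hp
  have hp0 : 0 < p := by positivity
  have hp1 : p ≤ 1 / 4 := by
    rw [hp, div_le_iff₀ (by linarith)]; linarith
  set m := ⌊(q : ℝ) * Real.log q / 8⌋₊ with hm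
  have hk := key P L q (q ^ 2 + q + 1) hqo rfl p hp0.le (by linarith) m
  have h12 : (1 / 2 : ℝ) ≤ (numInd P L : ℝ) * p ^ m := by linarith
  have hNpos : 0 < (numInd P L : ℝ) := by
    by_contra hh
    push Not at hh
    have : (numInd P L : ℝ) * p ^ m ≤ 0 := mul_nonpos_of_nonpos_of_nonneg hh (by positivity)
    linarith
  -- take logarithms
  have hlog : Real.log (1 / 2) ≤ Real.log (numInd P L) + m * Real.log p := by
    have := Real.log_le_log (by norm_num) h12
    rw [Real.log_mul hNpos.ne' (by positivity), Real.log_pow] at this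
    exact this
  have hs0 : 0 < Real.sqrt q := Real.sqrt_pos.mpr (by linarith)
  have hss : Real.sqrt q * Real.sqrt q = q := Real.mul_self_sqrt (by linarith)
  have hlp : Real.log p ≤ -(Real.log q / 2) := by
    have e1 : p ≤ 1 / Real.sqrt q := by
      rw [hp, div_le_div_iff₀ (by linarith) hs0]
      have e2 : Real.log q ≤ 2 * Real.sqrt q := by
        have : Real.log q = 2 * Real.log (Real.sqrt q) := by
          rw [Real.log_sqrt (by linarith)]; ring
        rw [this]
        have := Real.log_le_sub_one_of_pos hs0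
        linarith
      nlinarith
    have := Real.log_le_log hp0 e1
    rw [Real.log_div (by norm_num) hs0.ne', Real.log_one, Real.log_sqrt (by linarith)] at this
    linarith
  have hmge : (q : ℝ) * Real.log q / 10 ≤ m := by
    have : (q : ℝ) * Real.log q / 8 < m + 1 := Nat.lt_floor_add_one _
    nlinarith
  have hl2a : Real.log 2 < 0.6931471808 := Real.log_two_lt_d9
  have hl2b : 0.6931471803 < Real.log 2 := Real.log_two_gt_d9
  have hm0 : (0 : ℝ) ≤ m := Nat.cast_nonneg _
  have hmain : (q : ℝ) * Real.log q / 10 * (Real.log q / 2) - Real.log 2 ≤ Real.log (numInd P L) := by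
    have e1 : (m : ℝ) * Real.log p ≤ m * (-(Real.log q / 2)) := mul_le_mul_of_nonneg_left hlp hm0
    have e2 : (q : ℝ) * Real.log q / 10 * (Real.log q / 2) ≤ m * (Real.log q / 2) :=
      mul_le_mul_of_nonneg_right hmge (by positivity)
    have e3 : Real.log (1 / 2) = -Real.log 2 := by rw [one_div, Real.log_inv]
    rw [e3] at hlog
    nlinarith
  have hlog1 : 1 ≤ Real.log q := by
    have : Real.log (4 : ℝ) ≤ Real.log q := Real.log_le_log (by norm_num) hq1
    have e : Real.log 4 = 2 * Real.log 2 := by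
      rw [show (4 : ℝ) = 2 * 2 by norm_num, Real.log_mul (by norm_num) (by norm_num)]; ring
    linarith
  unfold Real.logb
  rw [le_div_iff₀ (by linarith)]
  have hX : (80 : ℝ) ≤ q * Real.log q * Real.log q := by nlinarith
  have e5 : (1 / 128 : ℝ) * q * (Real.log q / Real.log 2) ^ 2 * Real.log 2
      = (q * Real.log q * Real.log q) * (1 / (128 * Real.log 2)) := by
    field_simp
  rw [e5]
  have e6 : 1 / (128 * Real.log 2) ≤ 1 / 80 := by
    apply one_div_le_one_div_of_le (by norm_num)
    linarith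
  have e7 : (q * Real.log q * Real.log q) * (1 / (128 * Real.log 2)) ≤
      (q * Real.log q * Real.log q) * (1 / 80) := mul_le_mul_of_nonneg_left e6 (by linarith)
  refine e7.trans (le_trans ?_ hmain)
  nlinarith

end Pool.Agent.W5h2.DP
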