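import Pool.Agent.W5h2.DP.Defs

/-! (M): the number of minimal dominating sets. -/

set_option autoImplicit false

namespace Pool.Agent.W5h2.DP

open Finset Configuration

section sets

variable {α : Type} [Fintype α] {t : ℕ}

open Classical in
/-- the set of the values -/
noncomputable def mS (f : Fin t → Option α) : Finset α := univ.filter fun a => ∃ i, f i = some a

lemma mS_surj (U : Finset α) (h : U.card ≤ t) : ∃ f : Fin t → Option α, mS f = U := by
  classical
  refine ⟨fun i => U.toList[(i : ℕ)]?, ?_⟩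
  ext a
  unfold mS
  rw [mem_filter]
  constructor
  · rintro ⟨-, i, hi⟩
    have := List.mem_of_getElem? hi
    exact Finset.mem_toList.1 this
  · intro ha
    refine ⟨mem_univ a, ?_⟩
    obtain ⟨n, hn⟩ := List.mem_iff_getElem?.1 (Finset.mem_toList.2 ha)
    have hlt : n < U.toList.length := by
      by_contra h0
      rw [List.getElem?_eq_none (by omega)] at hn
      exact absurd hn (by simp)
    rw [Finset.length_toList] at hlt
    exact ⟨⟨n, hlt.trans_le h⟩, hn⟩

end sets

section main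

variable {P L : Type} [Fintype P] [Fintype L] [Membership P L]

open Classical in
/-- the lines missing `A` -/
noncomputable def mis (L : Type) [Fintype L] [Membership P L] (A : Finset P) : Finset L :=
  univ.filter fun l => ∀ p ∈ A, p ∉ l

lemma mem_mis {A : Finset P} {l : L} : l ∈ mis L A ↔ ∀ p ∈ A, p ∉ l := by
  classical
  unfold mis
  rw [mem_filter]
  exact ⟨fun h => h.2, fun h => ⟨mem_univ l, h⟩⟩

open Classical in
/-- the lines of the dominating set -/
noncomputable def mY (A : Finset P) (C : Finset L) : Finset L := mis L A ∪ C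

open Classical in
/-- the points of the dominating set -/
noncomputable def mX (B : Finset P) (Y : Finset L) : Finset P :=
  (univ.filter fun p => ∀ l ∈ Y, p ∉ l) ∪ B

lemma m_part {t : ℕ} (ht : ∀ U : Finset P, Tan P L U → U.card ≤ t)
    {D : Finset P × Finset L} (hD : Minimal (Dom P L) D) :
    ∃ (A B : Finset P) (C : Finset L), A.card ≤ t ∧ B.card ≤ t ∧ C.card ≤ t ∧
      D = (mX B (mY A C), mY A C) := by
  classical
  obtain ⟨X, Y⟩ := D
  obtain ⟨⟨h1, h2⟩, hmin⟩ := hD
  simp only at h1 h2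
  -- the points
  have hB : Tan P L (X.filter fun x => ∃ l ∈ Y, x ∈ l) := by
    intro u hu
    obtain ⟨huX, l0, hl0, hul0⟩ := mem_filter.1 hu
    have hnd : ¬ Dom P L (X.erase u, Y) := by
      intro h
      have h3 := (hmin h ⟨erase_subset u X, le_rfl⟩).1 huX
      exact (mem_erase.1 h3).1 rfl
    have h4 : ∃ l : L, l ∉ Y ∧ ∀ p ∈ X.erase u, p ∉ l := by
      by_contra h0
      push Not at h0
      refine hnd ⟨fun p hp => ?_, fun l hl => h0 l hl⟩
      by_cases hpu : p = u
      · exact ⟨l0, hl0, hpu ▸ hul0⟩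
      · exact h1 p fun hpX => hp (mem_erase.2 ⟨hpu, hpX⟩)
    obtain ⟨l, hl, hl2⟩ := h4
    obtain ⟨p, hpX, hpl⟩ := h2 l hl
    have hpu : p = u := by
      by_contra h0
      exact hl2 p (mem_erase.2 ⟨h0, hpX⟩) hpl
    refine ⟨l, hpu ▸ hpl, fun u' hu' hu'l => ?_⟩
    by_contra h0
    exact hl2 u' (mem_erase.2 ⟨h0, (mem_filter.1 hu').1⟩) hu'l
  -- the lines
  have hC : (Y.filter fun l => ∃ x ∈ X, x ∈ l).card ≤ t := by
    set C := Y.filter fun l => ∃ x ∈ X, x ∈ l with hCd
    have hex : ∀ l ∈ C, ∃ p : P, p ∈ l ∧ ∀ l' ∈ Y, p ∈ l' → l' = l := by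
      intro l hl
      obtain ⟨hlY, x0, hx0, hx0l⟩ := mem_filter.1 hl
      have hnd : ¬ Dom P L (X, Y.erase l) := by
        intro h
        have h3 := (hmin h ⟨le_rfl, erase_subset l Y⟩).2 hlY
        exact (mem_erase.1 h3).1 rfl
      have h4 : ∃ p : P, p ∉ X ∧ ∀ l' ∈ Y.erase l, p ∉ l' := by
        by_contra h0
        push Not at h0
        refine hnd ⟨fun p hp => h0 p hp, fun l' hl' => ?_⟩
        by_cases hll : l' = l
        · exact ⟨x0, hx0, hll ▸ hx0l⟩
        · exact h2 l' fun hl'Y => hl' (mem_erase.2 ⟨hll, hl'Y⟩)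
      obtain ⟨p, hp, hp2⟩ := h4
      obtain ⟨l'', hl''Y, hpl''⟩ := h1 p hp
      have hll : l'' = l := by
        by_contra h0
        exact hp2 l'' (mem_erase.2 ⟨h0, hl''Y⟩) hpl''
      refine ⟨p, hll ▸ hpl'', fun l' hl' hpl' => ?_⟩
      by_contra h0
      exact hp2 l' (mem_erase.2 ⟨h0, hl'⟩) hpl'
    choose pf hpf using hex
    have hinj : Function.Injective fun l : {l // l ∈ C} => pf l.1 l.2 := by
      intro a b hab
      have hab' : pf a.1 a.2 = pf b.1 b.2 := hab
      apply Subtype.ext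
      refine (hpf b.1 b.2).2 a.1 (mem_filter.1 a.2).1 ?_
      rw [← hab']
      exact (hpf a.1 a.2).1
    have hT : Tan P L (C.attach.image fun l => pf l.1 l.2) := by
      intro u hu
      obtain ⟨l, -, rfl⟩ := mem_image.1 hu
      refine ⟨l.1, (hpf l.1 l.2).1, fun u' hu' hu'l => ?_⟩
      obtain ⟨l', -, rfl⟩ := mem_image.1 hu'
      have h5 : l.1 = l'.1 := (hpf l'.1 l'.2).2 l.1 (mem_filter.1 l.2).1 hu'l
      have h6 : l = l' := Subtype.ext h5
      rw [h6]
    have h7 := ht _ hT
    rwa [card_image_of_injective _ hinj, card_attach] at h7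
  -- a minimal subset with the same missed lines
  obtain ⟨A, hA, hAmin⟩ := exists_min_image (X.powerset.filter fun A => mis L A = mis L X) card
    ⟨X, mem_filter.2 ⟨mem_powerset_self X, rfl⟩⟩
  obtain ⟨hAX, hAm⟩ := mem_filter.1 hA
  have hAT : Tan P L A := by
    intro u hu
    have h3 : mis L (A.erase u) ≠ mis L X := by
      intro h
      have h4 := hAmin (A.erase u) (mem_filter.2
        ⟨mem_powerset.2 ((erase_subset u A).trans (mem_powerset.1 hAX)), h⟩)
      exact absurd (card_erase_lt_of_mem hu) (by omega)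
    have h4 : ∃ l : L, (∀ p ∈ A.erase u, p ∉ l) ∧ ∃ p ∈ A, p ∈ l := by
      by_contra h0
      push Not at h0
      apply h3
      rw [← hAm]
      ext l
      rw [mem_mis, mem_mis]
      exact ⟨fun h => h0 l h, fun h p hp => h p (mem_of_mem_erase hp)⟩
    obtain ⟨l, hl, p, hpA, hpl⟩ := h4
    have hpu : p = u := by
      by_contra h0
      exact hl p (mem_erase.2 ⟨h0, hpA⟩) hpl
    refine ⟨l, hpu ▸ hpl, fun u' hu' hu'l => ?_⟩
    by_contra h0
    exact hl u' (mem_erase.2 ⟨h0, hu'⟩) hu'l
  have hY : mY A (Y.filter fun l => ∃ x ∈ X, x ∈ l) = Y := by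
    ext l
    unfold mY
    rw [mem_union, hAm, mem_mis, mem_filter]
    constructor
    · rintro (h | h)
      · by_contra h0
        obtain ⟨p, hp, hpl⟩ := h2 l h0
        exact h p hp hpl
      · exact h.1
    · intro h
      by_cases h0 : ∃ x ∈ X, x ∈ l
      · exact Or.inr ⟨h, h0⟩
      · push Not at h0
        exact Or.inl h0
  refine ⟨A, _, _, ht A hAT, ht _ hB, hC, ?_⟩
  rw [hY]
  refine Prod.ext ?_ rfl
  show X = mX (X.filter fun x => ∃ l ∈ Y, x ∈ l) Y
  ext p
  unfold mX
  rw [mem_union, mem_filter, mem_filter]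
  constructor
  · intro h
    by_cases h0 : ∃ l ∈ Y, p ∈ l
    · exact Or.inr ⟨h, h0⟩
    · push Not at h0
      exact Or.inl ⟨mem_univ p, h0⟩
  · rintro (h | h)
    · by_contra h0
      obtain ⟨l, hl, hpl⟩ := h1 p h0
      exact h.2 l hl hpl
    · exact h.1

end main

/-- (M) -/
theorem m : S_M := by
  classical
  intro P L _ _ _ _ t ht
  have hPL : Fintype.card L = Fintype.card P :=
    (Configuration.ProjectivePlane.card_points_eq_card_lines P L).symm
  set Φ : (Fin t → Option P) × (Fin t → Option P) × (Fin t → Option L) → Finset P × Finset L :=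
    fun z => (mX (mS z.2.1) (mY (mS z.1) (mS z.2.2)), mY (mS z.1) (mS z.2.2)) with hΦ
  have hsub : {D : Finset P × Finset L | Minimal (Dom P L) D} ⊆ Φ '' Set.univ := by
    intro D hD
    obtain ⟨A, B, C, hA, hB, hC, rfl⟩ := m_part ht hD
    obtain ⟨f, rfl⟩ := mS_surj A hA
    obtain ⟨g, rfl⟩ := mS_surj B hB
    obtain ⟨h, rfl⟩ := mS_surj C hC
    exact ⟨(f, g, h), Set.mem_univ _, rfl⟩
  unfold numMin
  refine (Set.ncard_le_ncard hsub (Set.toFinite _)).trans ((Set.ncard_image_le
    (Set.toFinite _)).trans ?_)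
  rw [Set.ncard_univ, Nat.card_eq_fintype_card, Fintype.card_prod, Fintype.card_prod,
    Fintype.card_fun, Fintype.card_fun, Fintype.card_option, Fintype.card_option,
    Fintype.card_fin, hPL]
  apply le_of_eq
  ring

end Pool.Agent.W5h2.DP
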