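import Pool.Agent.W5h2.DP.R

/-!
# Assembly
-/

set_option autoImplicit false

namespace Pool.Agent.W5h2.DP

open Finset Configuration

theorem num_pos (P L : Type) [Fintype P] [Fintype L] [Membership P L] [ProjectivePlane P L]
    (hu : S_U) : 1 ≤ numInd P L := by
  have h := hu P L ∅ (fun u h => absurd h (notMem_empty u))
  simpa using h

theorem log_ind (hv : S_H) (he1 : S_E1) (hu : S_U) : ∃ C : ℝ, ∀ (P L : Type) [Fintype P]
    [Fintype L] [Membership P L] [ProjectivePlane P L] (q : ℕ), q = ProjectivePlane.order P L →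
    Real.logb 2 (numInd P L) ≤ C * (q : ℝ) ^ (3 / 2 : ℝ) := by
  obtain ⟨C, hC⟩ := he1
  refine ⟨C, fun P L _ _ _ _ q hq => ?_⟩
  have hq2 : 2 ≤ q := by
    rw [hq]
    exact ProjectivePlane.one_lt_order P L
  obtain ⟨s, J, h1, h2, h3⟩ := hC q (q ^ 2 + q + 1) hq2 rfl
  have h4 := r hv P L q (q ^ 2 + q + 1) hq rfl s J h1 h2
  refine le_trans ?_ h3
  have h5 : (numInd P L : ℝ) ≤ 2 ^ s * (((q ^ 2 + q + 1 : ℕ) : ℝ) + 1) ^ J := by exact_mod_cast h4
  have h6 : (0 : ℝ) < numInd P L := by exact_mod_cast num_pos P L hu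
  have h7 : (0 : ℝ) < ((q ^ 2 + q + 1 : ℕ) : ℝ) + 1 := by positivity
  calc Real.logb 2 (numInd P L) ≤ Real.logb 2 (2 ^ s * (((q ^ 2 + q + 1 : ℕ) : ℝ) + 1) ^ J) :=
        Real.logb_le_logb_of_le (by norm_num) h6 h5
    _ = s + J * Real.logb 2 (((q ^ 2 + q + 1 : ℕ) : ℝ) + 1) := by
      rw [Real.logb_mul (by positivity) (by positivity), Real.logb_pow, Real.logb_pow,
        Real.logb_self_eq_one (by norm_num), mul_one]

theorem log_min (ht : S_T) (hm : S_M) (he2 : S_E2) (hu : S_U) (hi : S_I) : ∃ C : ℝ, ∀ (P L : Type)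
    [Fintype P] [Fintype L] [Membership P L] [ProjectivePlane P L] (q : ℕ),
    q = ProjectivePlane.order P L →
    Real.logb 2 (numInd P L) ≤ Real.logb 2 (numMin P L) ∧
    Real.logb 2 (numMin P L) ≤ C * (q : ℝ) ^ (3 / 2 : ℝ) * Real.logb 2 q := by
  obtain ⟨C, hC⟩ := he2
  refine ⟨C, fun P L _ _ _ _ q hq => ?_⟩
  have hq2 : 2 ≤ q := by
    rw [hq]
    exact ProjectivePlane.one_lt_order P L
  have h6 : (0 : ℝ) < numInd P L := by exact_mod_cast num_pos P L hu
  have h7 : (numInd P L : ℝ) ≤ numMin P L := by exact_mod_cast hi P L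
  refine ⟨Real.logb_le_logb_of_le (by norm_num) h6 h7, ?_⟩
  set n := q ^ 2 + q + 1 with hn
  set t := Nat.sqrt (4 * q * n) with ht'
  have h1 : ∀ U : Finset P, Tan P L U → U.card ≤ t := by
    intro U hU
    rw [ht', Nat.le_sqrt, ← sq]
    exact ht P L q n hq rfl U hU
  have h2 := hm P L t h1
  have h3 : Fintype.card P = n := by
    rw [ProjectivePlane.card_points P L, hn, hq]
  rw [h3] at h2
  have h4 : t ^ 2 ≤ 4 * q * n := by
    rw [sq]
    exact Nat.sqrt_le _
  refine le_trans ?_ (hC q n t hq2 rfl h4)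
  have h5 : (numMin P L : ℝ) ≤ ((n : ℝ) + 1) ^ (3 * t) := by exact_mod_cast h2
  have h8 : (0 : ℝ) < numMin P L := lt_of_lt_of_le h6 h7
  calc Real.logb 2 (numMin P L) ≤ Real.logb 2 (((n : ℝ) + 1) ^ (3 * t)) :=
        Real.logb_le_logb_of_le (by norm_num) h8 h5
    _ = 3 * t * Real.logb 2 (n + 1) := by
      rw [Real.logb_pow]
      push_cast
      ring

theorem card_le_log (hu : S_U) (P L : Type) [Fintype P] [Fintype L] [Membership P L]
    [ProjectivePlane P L] (U : Finset P) (hU : Tan P L U) :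
    (U.card : ℝ) ≤ Real.logb 2 (numInd P L) := by
  have h1 : ((2 : ℝ)) ^ U.card ≤ numInd P L := by exact_mod_cast hu P L U hU
  calc (U.card : ℝ) = Real.logb 2 ((2 : ℝ) ^ U.card) := by
        rw [Real.logb_pow, Real.logb_self_eq_one (by norm_num), mul_one]
    _ ≤ _ := Real.logb_le_logb_of_le (by norm_num) (by positivity) h1

end Pool.Agent.W5h2.DP
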