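import Pool.Agent.W5h2.DP.Defs

set_option autoImplicit false

namespace Pool.Agent.W5h2.DP

open Finset Configuration

open Classical in
theorem t (hv : S_V) : S_T := by
  intro P L _ _ _ _ q n hq hn U hU
  have hV := hv P L q n hq hn U
  -- choose tangents
  choose g hg1 hg2 using hU
  let F : U → L := fun u => g u.1 u.2
  have hFinj : Function.Injective F := by
    intro u v huv
    have h1 : v.1 ∈ g u.1 u.2 := by
      have : g u.1 u.2 = g v.1 v.2 := huv
      rw [this]; exact hg1 v.1 v.2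
    exact Subtype.ext (hg2 u.1 u.2 v.1 v.2 h1).symm
  let B : Finset L := Finset.univ.image F
  have hBcard : B.card = U.card := by
    rw [Finset.card_image_of_injective _ hFinj]; simp
  have hBone : ∀ l ∈ B, (U.filter fun p => p ∈ l).card = 1 := by
    intro l hl
    obtain ⟨u, -, rfl⟩ := Finset.mem_image.1 hl
    rw [Finset.card_eq_one]
    refine ⟨u.1, ?_⟩
    ext p
    simp only [Finset.mem_filter, Finset.mem_singleton]
    constructor
    · rintro ⟨hp, hpl⟩
      exact hg2 u.1 u.2 p hp hpl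
    · rintro rfl
      exact ⟨u.2, hg1 u.1 u.2⟩
  have hsub : ∑ l ∈ B, ((n : ℝ) * ((U.filter fun p => p ∈ l).card : ℝ) -
      (U.card : ℝ) * ((q : ℝ) + 1)) ^ (2 : ℕ) ≤ (n : ℝ) * q * U.card * (n - U.card) := by
    rw [← hV]
    exact Finset.sum_le_sum_of_subset_of_nonneg (Finset.subset_univ _) (fun _ _ _ => sq_nonneg _)
  have hconst : ∑ l ∈ B, ((n : ℝ) * ((U.filter fun p => p ∈ l).card : ℝ) -
      (U.card : ℝ) * ((q : ℝ) + 1)) ^ (2 : ℕ) = (U.card : ℝ) * ((n : ℝ) - U.card * (q + 1)) ^ 2 := by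
    rw [Finset.sum_congr rfl (g := fun _ => ((n : ℝ) - U.card * (q + 1)) ^ 2)]
    · rw [Finset.sum_const, nsmul_eq_mul, hBcard]
    · intro l hl
      rw [hBone l hl]; simp
  rw [hconst] at hsub
  have hk0 : (0 : ℝ) ≤ (U.card : ℝ) := Nat.cast_nonneg _
  have hq0 : (0 : ℝ) ≤ q := Nat.cast_nonneg _
  have hnR : (n : ℝ) = (q : ℝ) ^ 2 + q + 1 := by exact_mod_cast hn
  have hq2 : 2 ≤ q := by
    have := ProjectivePlane.one_lt_order P L
    omega
  have hq2R : (2 : ℝ) ≤ q := by exact_mod_cast hq2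
  have goal : (U.card : ℝ) ^ 2 ≤ 4 * q * n := by
    set k : ℝ := (U.card : ℝ) with hk
    rcases eq_or_lt_of_le hk0 with h0 | hkpos
    · have h00 : k ^ 2 = 0 := by rw [← h0]; ring
      rw [h00]; positivity
    have h1 : ((n : ℝ) - k * (q + 1)) ^ 2 ≤ (n : ℝ) * q * (n - k) := by
      have : k * ((n : ℝ) - k * (q + 1)) ^ 2 ≤ k * ((n : ℝ) * q * (n - k)) := by
        calc k * ((n : ℝ) - k * (q + 1)) ^ 2 ≤ (n : ℝ) * q * k * (n - k) := hsub
          _ = k * ((n : ℝ) * q * (n - k)) := by ring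
      exact le_of_mul_le_mul_left this hkpos
    have hn0 : 0 < (n : ℝ) := by rw [hnR]; positivity
    have h1' : ((n : ℝ) - k * (q + 1)) ^ 2 ≤ (n : ℝ) * q * n := by
      refine h1.trans ?_
      apply mul_le_mul_of_nonneg_left _ (by positivity)
      linarith
    by_cases hc : 2 * (n : ℝ) ≤ k * (q + 1)
    · -- k(q+1) - n ≥ k(q+1)/2
      have h2 : (k * (q + 1) / 2) ^ 2 ≤ ((n : ℝ) - k * (q + 1)) ^ 2 := by
        have ha : k * (q + 1) / 2 ≤ k * (q + 1) - n := by linarith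
        have hb : 0 ≤ k * (q + 1) / 2 := by positivity
        nlinarith
      have h3 : k ^ 2 * (q + 1) ^ 2 ≤ 4 * q * n * n := by nlinarith
      have h4 : (n : ℝ) ≤ (q + 1) ^ 2 := by rw [hnR]; nlinarith
      have h5 : k ^ 2 * (q + 1) ^ 2 ≤ (4 * q * n) * (q + 1) ^ 2 := by
        refine h3.trans ?_
        apply mul_le_mul_of_nonneg_left h4 (by positivity)
      exact le_of_mul_le_mul_right h5 (by positivity)
    · push Not at hc
      -- k (q+1) < 2n ≤ 2 (q+1)^2, so k < 2 (q+1)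
      have h4 : (n : ℝ) ≤ (q + 1) ^ 2 := by rw [hnR]; nlinarith
      have h5 : k < 2 * (q + 1) := by
        have : k * (q + 1) < (2 * (q + 1)) * (q + 1) := by nlinarith
        exact lt_of_mul_lt_mul_right this (by positivity)
      have h6 : k ^ 2 ≤ 4 * (q + 1) ^ 2 := by nlinarith
      have h7 : (q + 1 : ℝ) ^ 2 ≤ q * n := by
        rw [hnR]; nlinarith [mul_nonneg (sub_nonneg.2 hq2R) (sub_nonneg.2 hq2R), mul_nonneg hq0 (mul_nonneg hq0 (sub_nonneg.2 hq2R))]
      nlinarith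
  exact_mod_cast goal

end Pool.Agent.W5h2.DP
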