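import Pool.Agent.W5h2.DP.Defs

/-!
# (U) tangency sets give independent dominating sets
-/

set_option autoImplicit false

namespace Pool.Agent.W5h2.DP

open Finset Configuration

theorem u : S_U := by
  classical
  intro P L _ _ _ _ U hU
  let Y : Finset P → Finset L := fun T => Finset.univ.filter fun l => ∀ p ∈ T, p ∉ l
  let X : Finset P → Finset P := fun T => Finset.univ.filter fun p => ∀ l ∈ Y T, p ∉ l
  have hY : ∀ T l, l ∈ Y T ↔ ∀ p ∈ T, p ∉ l := fun T l => by simp [Y]
  have hX : ∀ T p, p ∈ X T ↔ ∀ l ∈ Y T, p ∉ l := fun T p => by simp [X]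
  have hTX : ∀ T, T ⊆ X T := fun T p hp => (hX T p).2 fun l hl => (hY T l).1 hl p hp
  have hXU : ∀ T ⊆ U, (X T).filter (fun p => p ∈ U) = T := by
    intro T hT
    ext p
    rw [Finset.mem_filter]
    constructor
    · rintro ⟨hp, hpU⟩
      by_contra hpT
      obtain ⟨l, hpl, hl⟩ := hU p hpU
      refine (hX T p).1 hp l ((hY T l).2 fun t ht htl => hpT ?_) hpl
      rw [← hl t (hT ht) htl]
      exact ht
    · intro hp
      exact ⟨hTX T hp, hT hp⟩
  let f : Finset P → Finset P × Finset L := fun T => (X T, Y T)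
  have hf : ∀ T, f T ∈ {D : Finset P × Finset L | Dom P L D ∧ Ind P L D} := by
    intro T
    refine ⟨⟨fun p hp => ?_, fun l hl => ?_⟩, fun p hp l hl => (hX T p).1 hp l hl⟩
    · by_contra h
      push Not at h
      exact hp ((hX T p).2 h)
    · by_contra h
      push Not at h
      exact hl ((hY T l).2 fun p hp => h p (hTX T hp))
  have hinj : Set.InjOn f (U.powerset : Set (Finset P)) := by
    intro T hT T' hT' h
    rw [Finset.mem_coe, Finset.mem_powerset] at hT hT'
    have h1 : X T = X T' := congrArg Prod.fst h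
    rw [← hXU T hT, ← hXU T' hT', h1]
  have hsub : f '' (U.powerset : Set (Finset P)) ⊆
      {D : Finset P × Finset L | Dom P L D ∧ Ind P L D} := by
    rintro _ ⟨T, _, rfl⟩
    exact hf T
  have h2 := Set.ncard_le_ncard hsub (Set.toFinite _)
  rw [Set.ncard_image_of_injOn hinj, Set.ncard_coe_finset, Finset.card_powerset] at h2
  exact h2

end Pool.Agent.W5h2.DP
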