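import Pool.Agent.W5h2.DP.Defs

/-!
# (UN) every point of a unital has a tangent
-/

set_option autoImplicit false

namespace Pool.Agent.W5h2.DP

open Finset Configuration

open Classical in
/-- every point of a unital lies on a tangent -/
theorem un (P L : Type) [Fintype P] [Fintype L] [Membership P L] [ProjectivePlane P L] (r : ℕ)
    (hr : ProjectivePlane.order P L = r ^ 2) (U : Finset P) (hU : U.card = r ^ 3 + 1)
    (h : ∀ l : L, (U.filter fun p => p ∈ l).card = 1 ∨ (U.filter fun p => p ∈ l).card = r + 1) :
    Tan P L U := by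
  intro u hu
  by_contra hcon
  have hr0 : r ≠ 0 := by
    rintro rfl
    have := ProjectivePlane.one_lt_order P L
    rw [hr] at this
    simp at this
  have hdeg : (univ.filter (fun l : L => u ∈ l)).card = r ^ 2 + 1 := by
    have h1 : lineCount L u = ProjectivePlane.order P L + 1 := ProjectivePlane.lineCount_eq L u
    have h2 : (univ.filter (fun l : L => u ∈ l)).card = lineCount L u := by
      unfold lineCount
      rw [Nat.card_eq_fintype_card, Fintype.card_subtype]
    rw [h2, h1, hr]
  have hpair : ∀ p : P, u ≠ p → (univ.filter (fun l : L => u ∈ l ∧ p ∈ l)).card = 1 := by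
    intro p hp
    have h2 : (univ.filter (fun l : L => u ∈ l ∧ p ∈ l)) = {HasLines.mkLine hp} := by
      ext l
      simp only [mem_filter, mem_univ, true_and, mem_singleton]
      constructor
      · rintro ⟨h1, h2⟩
        have h3 := HasLines.mkLine_ax (L := L) hp
        rcases Nondegenerate.eq_or_eq h1 h2 h3.1 h3.2 with h4 | h4
        · exact absurd h4 hp
        · exact h4
      · rintro rfl
        exact HasLines.mkLine_ax (L := L) hp
    rw [h2, card_singleton]
  have hall : ∀ l ∈ univ.filter (fun l : L => u ∈ l), (U.filter fun p => p ∈ l).card = r + 1 := by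
    intro l hl
    rw [mem_filter] at hl
    rcases h l with h1 | h1
    · exfalso
      apply hcon
      refine ⟨l, hl.2, fun u' hu' hul' => ?_⟩
      obtain ⟨a, ha⟩ := card_eq_one.1 h1
      have h2 : u' ∈ U.filter (fun p => p ∈ l) := mem_filter.2 ⟨hu', hul'⟩
      have h3 : u ∈ U.filter (fun p => p ∈ l) := mem_filter.2 ⟨hu, hl.2⟩
      rw [ha, mem_singleton] at h2 h3
      rw [h2, h3]
    · exact h1
  have hsum : ∑ l ∈ univ.filter (fun l : L => u ∈ l), (U.filter fun p => p ∈ l).card =
      ∑ p ∈ U, (univ.filter (fun l : L => u ∈ l ∧ p ∈ l)).card := by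
    have h1 : ∀ l ∈ univ.filter (fun l : L => u ∈ l), (U.filter fun p => p ∈ l).card =
        ∑ p ∈ U, if p ∈ l then 1 else 0 := fun l _ => card_filter _ _
    rw [Finset.sum_congr rfl h1, Finset.sum_comm]
    refine Finset.sum_congr rfl fun p _ => ?_
    rw [← card_filter, filter_filter]
  rw [Finset.sum_congr rfl hall, Finset.sum_const, hdeg, smul_eq_mul, ← Finset.add_sum_erase U _ hu] at hsum
  have h5 : ∑ p ∈ U.erase u, (univ.filter (fun l : L => u ∈ l ∧ p ∈ l)).card = r ^ 3 := by
    rw [Finset.sum_congr rfl (fun p hp => hpair p (ne_of_mem_erase hp).symm), Finset.sum_const,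
      smul_eq_mul, mul_one, card_erase_of_mem hu, hU]
    rfl
  have h6 : (univ.filter (fun l : L => u ∈ l ∧ u ∈ l)).card = r ^ 2 + 1 := by
    rw [← hdeg]
    congr 1
    ext l
    simp
  rw [h5, h6] at hsum
  have h7 : (r ^ 2 + 1) * (r + 1) = r ^ 2 + 1 + r ^ 3 + r := by ring
  omega

end Pool.Agent.W5h2.DP
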