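import Pool.Agent.W5h2.DP.Defs

set_option autoImplicit false

namespace Pool.Agent.W5h2.DP

open Finset Configuration

section sums
variable {P : Type} [Fintype P] [DecidableEq P]

/-- weight of a set of points under independent sampling -/
noncomputable def wt (p : ℝ) (X : Finset P) : ℝ := p ^ X.card * (1 - p) ^ (Xᶜ).card

theorem sum_general (a b : P → ℝ) :
    ∑ X : Finset P, (∏ x ∈ X, a x) * ∏ x ∈ Xᶜ, b x = ∏ x, (a x + b x) := by
  rw [Finset.prod_add]
  simp [Finset.powerset_univ, Finset.compl_eq_univ_sdiff]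

theorem sum_disjoint (p : ℝ) (D : Finset P) :
    ∑ X : Finset P, (if Disjoint X D then wt p X else 0) = (1 - p) ^ D.card := by
  have h := sum_general (fun x => if x ∈ D then 0 else p) (fun _ : P => 1 - p)
  have h2 : ∏ x, ((if x ∈ D then 0 else p) + (1 - p)) = (1 - p) ^ D.card := by
    rw [Finset.prod_congr rfl (g := fun x => if x ∈ D then 1 - p else 1)]
    · rw [Finset.prod_ite_mem]; simp
    · intro x _; split_ifs <;> ring
  rw [← h2, ← h]
  apply Finset.sum_congr rfl
  intro X _
  split_ifs with hd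
  · have h3 : ∏ x ∈ X, (if x ∈ D then 0 else p) = p ^ X.card := by
      rw [Finset.prod_congr rfl (g := fun _ => p)]
      · simp
      · intro x hx; rw [if_neg (Finset.disjoint_left.1 hd hx)]
    rw [h3, Finset.prod_const, wt]
  · obtain ⟨x, hx, hxD⟩ := Finset.not_disjoint_iff.1 hd
    rw [Finset.prod_eq_zero hx (by simp [hxD])]; simp

theorem sum_wt (p : ℝ) : ∑ X : Finset P, wt p X = 1 := by
  have := sum_disjoint p (∅ : Finset P)
  simpa using this

theorem sum_mgf (p : ℝ) : ∑ X : Finset P, (1 / 2 : ℝ) ^ X.card * wt p X =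
    (1 - p / 2) ^ Fintype.card P := by
  have h := sum_general (fun _ : P => p / 2) (fun _ : P => 1 - p)
  rw [Finset.prod_const, Finset.card_univ] at h
  have e : p / 2 + (1 - p) = 1 - p / 2 := by ring
  rw [e] at h
  rw [← h]
  apply Finset.sum_congr rfl
  intro X _
  rw [Finset.prod_const, Finset.prod_const, wt, ← mul_assoc, ← mul_pow]
  congr 2; ring

theorem sum_hit {ι : Type} [DecidableEq ι] (p : ℝ) (q : ℕ) (J : Finset ι) (C : ι → Finset P)
    (hC : ∀ j ∈ J, (C j).card = q) (hd : ∀ i ∈ J, ∀ j ∈ J, i ≠ j → Disjoint (C i) (C j)) :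
    ∑ X : Finset P, (if ∀ j ∈ J, ¬ Disjoint X (C j) then wt p X else 0) =
      (1 - (1 - p) ^ q) ^ J.card := by
  have hR : (1 - (1 - p) ^ q) ^ J.card = ∑ t ∈ J.powerset, ∏ _j ∈ t, (-(1 - p) ^ q) := by
    rw [← Finset.prod_const]
    have := Finset.prod_add (fun _ : ι => -(1 - p) ^ q) (fun _ => (1 : ℝ)) J
    simp only [Finset.prod_const_one, mul_one] at this
    rw [← this]
    apply Finset.prod_congr rfl; intros; ring
  have hL : ∀ X : Finset P, (if ∀ j ∈ J, ¬ Disjoint X (C j) then wt p X else 0) =
      ∑ t ∈ J.powerset, (-1 : ℝ) ^ t.card * (if Disjoint X (t.biUnion C) then wt p X else 0) := by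
    intro X
    have h1 := Finset.prod_add (fun j : ι => -(if Disjoint X (C j) then (1 : ℝ) else 0))
      (fun _ => (1 : ℝ)) J
    simp only [Finset.prod_const_one, mul_one] at h1
    have h2 : (if ∀ j ∈ J, ¬ Disjoint X (C j) then wt p X else 0) =
        wt p X * ∏ j ∈ J, (-(if Disjoint X (C j) then (1 : ℝ) else 0) + 1) := by
      split_ifs with h
      · rw [Finset.prod_eq_one]
        · ring
        · intro j hj; rw [if_neg (h j hj)]; ring
      · push Not at h
        obtain ⟨j, hj, hjd⟩ := h
        rw [Finset.prod_eq_zero hj]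
        · ring
        · rw [if_pos hjd]; ring
    rw [h2, h1, Finset.mul_sum]
    apply Finset.sum_congr rfl
    intro t ht
    split_ifs with hdt
    · rw [Finset.disjoint_biUnion_right] at hdt
      rw [Finset.prod_congr rfl (g := fun _ => (-1 : ℝ)), Finset.prod_const]
      · ring
      · intro j hj; rw [if_pos (hdt j hj)]
    · rw [Finset.disjoint_biUnion_right] at hdt
      push Not at hdt
      obtain ⟨j, hj, hjd⟩ := hdt
      rw [Finset.prod_eq_zero hj]
      · ring
      · rw [if_neg hjd]; ring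
  rw [Finset.sum_congr rfl (fun X _ => hL X), Finset.sum_comm, hR]
  apply Finset.sum_congr rfl
  intro t ht
  have htJ := Finset.mem_powerset.1 ht
  rw [← Finset.mul_sum, sum_disjoint, Finset.prod_const]
  have hc : (t.biUnion C).card = q * t.card := by
    rw [Finset.card_biUnion (fun i hi j hj hij => hd i (htJ hi) j (htJ hj) hij),
      Finset.sum_congr rfl (fun j hj => hC j (htJ hj)), Finset.sum_const, smul_eq_mul, mul_comm]
  rw [hc, pow_mul, ← mul_pow]
  congr 1; ring

end sums

end Pool.Agent.W5h2.DP
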