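import Pool.Agent.W5h2.DP.LB1

set_option autoImplicit false

namespace Pool.Agent.W5h2.DP

open Finset Configuration

open Classical in
theorem lb2 (P L : Type) [Fintype P] [Fintype L] [Membership P L] [ProjectivePlane P L]
    (q n : ℕ) (hq : q = ProjectivePlane.order P L) (hn : n = q ^ 2 + q + 1) (p : ℝ)
    (hp0 : 0 ≤ p) (hp1 : p ≤ 1) (s : ℕ) :
    (1 : ℝ) ≤ numInd P L * p ^ s + n * (1 - (1 - p) ^ q) ^ (q + 1) + 2 ^ s * (1 - p / 2) ^ n := by
  have hcard : Fintype.card P = n := by rw [ProjectivePlane.card_points P L, ← hq, hn]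
  let J : P → Finset L := fun x => univ.filter fun l => x ∈ l
  let C : P → L → Finset P := fun x l => (univ.filter fun y => y ∈ l).erase x
  have hJ : ∀ x, (J x).card = q + 1 := by
    intro x
    have h := ProjectivePlane.lineCount_eq (P := P) (L := L) x
    rw [lineCount, Nat.card_eq_fintype_card, Fintype.card_subtype, ← hq] at h
    exact h
  have hC : ∀ x, ∀ l ∈ J x, (C x l).card = q := by
    intro x l hl
    have h := ProjectivePlane.pointCount_eq (P := P) (L := L) l
    rw [pointCount, Nat.card_eq_fintype_card, Fintype.card_subtype, ← hq] at h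
    have hx : x ∈ (univ.filter fun y : P => y ∈ l) := by simpa [J] using hl
    show ((univ.filter fun y : P => y ∈ l).erase x).card = q
    rw [Finset.card_erase_of_mem hx]
    omega
  have hdis : ∀ x, ∀ i ∈ J x, ∀ j ∈ J x, i ≠ j → Disjoint (C x i) (C x j) := by
    intro x i hi j hj hij
    rw [Finset.disjoint_left]
    intro y hy hy'
    simp only [C, J, Finset.mem_filter, Finset.mem_univ, true_and, Finset.mem_erase] at hi hj hy hy'
    rcases Nondegenerate.eq_or_eq hi hy.2 hj hy'.2 with h | h
    · exact hy.1 h.symm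
    · exact hij h
  let G : Finset (Finset P) :=
    univ.filter fun X => ∀ x, x ∉ X → ∃ l : L, x ∈ l ∧ ∀ y ∈ X, y ∉ l
  have hG : G.card ≤ numInd P L := by
    rw [numInd, ← Set.ncard_coe_finset]
    apply Set.ncard_le_ncard_of_injOn (fun X : Finset P =>
      ((X, univ.filter fun l : L => ∀ y ∈ X, y ∉ l) : Finset P × Finset L))
    · intro X hX
      have hX' : ∀ x, x ∉ X → ∃ l : L, x ∈ l ∧ ∀ y ∈ X, y ∉ l := by simpa [G] using hX
      refine ⟨⟨?_, ?_⟩, ?_⟩
      · intro x hx
        obtain ⟨l, hl, hl2⟩ := hX' x hx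
        exact ⟨l, by simpa using hl2, hl⟩
      · intro l hl
        simp only [Finset.mem_filter, Finset.mem_univ, true_and, not_forall, not_not] at hl
        obtain ⟨y, hy, hyl⟩ := hl
        exact ⟨y, hy, hyl⟩
      · intro x hx l hl
        simp only [Finset.mem_filter, Finset.mem_univ, true_and] at hl
        exact hl x hx
    · intro X _ Y _ h
      exact (Prod.ext_iff.1 h).1
  have hwt0 : ∀ X : Finset P, 0 ≤ wt p X := fun X => by
    unfold wt
    have : 0 ≤ 1 - p := by linarith
    positivity
  have hpt : ∀ X : Finset P, wt p X ≤ (if X ∈ G then p ^ s else 0) +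
      ∑ x : P, (if ∀ l ∈ J x, ¬ Disjoint X (C x l) then wt p X else 0) +
      2 ^ s * ((1 / 2 : ℝ) ^ X.card * wt p X) := by
    intro X
    have h1 : 0 ≤ (if X ∈ G then p ^ s else 0) := by split_ifs <;> positivity
    have h2 : 0 ≤ ∑ x : P, (if ∀ l ∈ J x, ¬ Disjoint X (C x l) then wt p X else 0) := by
      apply Finset.sum_nonneg
      intro x _
      split_ifs
      · exact hwt0 X
      · exact le_rfl
    have h3 : 0 ≤ 2 ^ s * ((1 / 2 : ℝ) ^ X.card * wt p X) := by
      have := hwt0 X
      positivity
    by_cases hs : X.card < s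
    · have : wt p X ≤ 2 ^ s * ((1 / 2 : ℝ) ^ X.card * wt p X) := by
        have e : (1 : ℝ) ≤ 2 ^ s * (1 / 2 : ℝ) ^ X.card := by
          have e1 : (2 : ℝ) ^ X.card * (1 / 2 : ℝ) ^ X.card = 1 := by
            rw [← mul_pow]; norm_num
          calc (1 : ℝ) = 2 ^ X.card * (1 / 2 : ℝ) ^ X.card := e1.symm
            _ ≤ 2 ^ s * (1 / 2 : ℝ) ^ X.card :=
              mul_le_mul_of_nonneg_right (pow_le_pow_right₀ (by norm_num) hs.le) (by positivity)
        calc wt p X = 1 * wt p X := by ring
          _ ≤ (2 ^ s * (1 / 2 : ℝ) ^ X.card) * wt p X := mul_le_mul_of_nonneg_right e (hwt0 X)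
          _ = _ := by ring
      linarith
    by_cases hXG : X ∈ G
    · have : wt p X ≤ p ^ s := by
        unfold wt
        calc p ^ X.card * (1 - p) ^ (Xᶜ).card ≤ p ^ X.card * 1 := by
              apply mul_le_mul_of_nonneg_left _ (by positivity)
              exact pow_le_one₀ (by linarith) (by linarith)
          _ = p ^ X.card := by ring
          _ ≤ p ^ s := pow_le_pow_of_le_one hp0 hp1 (not_lt.1 hs)
      rw [if_pos hXG] at h1 ⊢
      linarith
    · have hb : ∃ x, x ∉ X ∧ ∀ l : L, x ∈ l → ∃ y ∈ X, y ∈ l := by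
        simp only [G, Finset.mem_filter, Finset.mem_univ, true_and] at hXG
        push Not at hXG
        exact hXG
      obtain ⟨x, hxX, hx⟩ := hb
      have hcond : ∀ l ∈ J x, ¬ Disjoint X (C x l) := by
        intro l hl
        have hxl : x ∈ l := by simpa [J] using hl
        obtain ⟨y, hy, hyl⟩ := hx l hxl
        rw [Finset.not_disjoint_iff]
        refine ⟨y, hy, ?_⟩
        simp only [C, Finset.mem_erase, Finset.mem_filter, Finset.mem_univ, true_and]
        exact ⟨fun h => hxX (h ▸ hy), hyl⟩
      have : wt p X ≤ ∑ x : P, (if ∀ l ∈ J x, ¬ Disjoint X (C x l) then wt p X else 0) := by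
        have := Finset.single_le_sum
          (f := fun x : P => (if ∀ l ∈ J x, ¬ Disjoint X (C x l) then wt p X else 0))
          (fun x _ => by
            show 0 ≤ (if ∀ l ∈ J x, ¬ Disjoint X (C x l) then wt p X else 0)
            split_ifs
            · exact hwt0 X
            · exact le_rfl) (Finset.mem_univ x)
        simp only [if_pos hcond] at this
        exact this
      linarith
  have hsum := Finset.sum_le_sum (fun (X : Finset P) (_ : X ∈ univ) => hpt X)
  rw [sum_wt, Finset.sum_add_distrib, Finset.sum_add_distrib, ← Finset.mul_sum, sum_mgf,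
    Finset.sum_comm, hcard] at hsum
  have hA : ∑ X : Finset P, (if X ∈ G then p ^ s else 0) = G.card * p ^ s := by
    rw [Finset.sum_ite_mem]; simp
  have hB : ∑ x : P, ∑ X : Finset P, (if ∀ l ∈ J x, ¬ Disjoint X (C x l) then wt p X else 0) =
      n * (1 - (1 - p) ^ q) ^ (q + 1) := by
    rw [Finset.sum_congr rfl (g := fun _ => (1 - (1 - p) ^ q) ^ (q + 1))]
    · rw [Finset.sum_const, nsmul_eq_mul, Finset.card_univ, hcard]
    · intro x _
      have hx := sum_hit p q (J x) (C x) (hC x) (hdis x)
      rw [hJ x] at hx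
      rw [← hx]
      apply Finset.sum_congr rfl
      intro X _
      by_cases hc : ∀ l ∈ J x, ¬ Disjoint X (C x l)
      · rw [if_pos hc, if_pos hc]
      · rw [if_neg hc, if_neg hc]
  rw [hA, hB] at hsum
  have hGR : (G.card : ℝ) * p ^ s ≤ numInd P L * p ^ s := by
    apply mul_le_mul_of_nonneg_right _ (by positivity)
    exact_mod_cast hG
  linarith

end Pool.Agent.W5h2.DP
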