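import Pool.Agent.W5h2.DP.Defs

/-!
# (R): container recursion for the independent dominating sets
-/

set_option autoImplicit false

namespace Pool.Agent.W5h2.DP

open Finset Configuration

section rec

variable {P L : Type} [Fintype P] [Fintype L] [Membership P L]

theorem eq_of_fst {D D' : Finset P × Finset L} (h : Dom P L D ∧ Ind P L D)
    (h' : Dom P L D' ∧ Ind P L D') (h1 : D.1 = D'.1) : D = D' := by
  refine Prod.ext h1 (Finset.ext fun l => ?_)
  constructor
  · intro hl
    by_contra hl'
    obtain ⟨p, hp, hpl⟩ := h'.1.2 l hl'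
    exact h.2 p (h1 ▸ hp) l hl hpl
  · intro hl
    by_contra hl'
    obtain ⟨p, hp, hpl⟩ := h.1.2 l hl'
    exact h'.2 p (h1 ▸ hp) l hl hpl

theorem eq_of_snd {D D' : Finset P × Finset L} (h : Dom P L D ∧ Ind P L D)
    (h' : Dom P L D' ∧ Ind P L D') (h2 : D.2 = D'.2) : D = D' := by
  refine Prod.ext (Finset.ext fun p => ?_) h2
  constructor
  · intro hp
    by_contra hp'
    obtain ⟨l, hl, hpl⟩ := h'.1.1 p hp'
    exact h.2 p hp l (h2 ▸ hl) hpl
  · intro hp
    by_contra hp'
    obtain ⟨l, hl, hpl⟩ := h.1.1 p hp'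
    exact h'.2 p hp l (h2 ▸ hl) hpl

open Classical in
/-- the independent dominating sets between `F` and `F ∪ A`, with lines in `B` -/
noncomputable def fam (F A : Finset P) (B : Finset L) : Finset (Finset P × Finset L) :=
  univ.filter fun D => (Dom P L D ∧ Ind P L D) ∧ F ⊆ D.1 ∧ D.1 ⊆ F ∪ A ∧ D.2 ⊆ B

open Classical in
theorem mem_fam {F A : Finset P} {B : Finset L} {D : Finset P × Finset L} :
    D ∈ fam F A B ↔ (Dom P L D ∧ Ind P L D) ∧ F ⊆ D.1 ∧ D.1 ⊆ F ∪ A ∧ D.2 ⊆ B := by
  simp [fam]

theorem fam_le_left (F A : Finset P) (B : Finset L) : (fam F A B).card ≤ 2 ^ A.card := by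
  classical
  rw [← card_powerset]
  refine card_le_card_of_injOn (fun D => D.1 ∩ A) ?_ ?_
  · intro D _
    exact mem_powerset.2 inter_subset_right
  · intro D hD D' hD' h
    have h1 := mem_fam.1 (mem_coe.1 hD)
    have h2 := mem_fam.1 (mem_coe.1 hD')
    refine eq_of_fst h1.1 h2.1 ?_
    have h3 : D.1 ∩ A = D'.1 ∩ A := h
    ext p
    constructor
    · intro hp
      rcases mem_union.1 (h1.2.2.1 hp) with hF | hA
      · exact h2.2.1 hF
      · exact (mem_inter.1 (h3 ▸ mem_inter.2 ⟨hp, hA⟩)).1
    · intro hp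
      rcases mem_union.1 (h2.2.2.1 hp) with hF | hA
      · exact h1.2.1 hF
      · exact (mem_inter.1 (h3.symm ▸ mem_inter.2 ⟨hp, hA⟩)).1

theorem fam_le_right (F A : Finset P) (B : Finset L) : (fam F A B).card ≤ 2 ^ B.card := by
  classical
  rw [← card_powerset]
  refine card_le_card_of_injOn (fun D => D.2) ?_ ?_
  · intro D hD
    exact mem_powerset.2 (mem_fam.1 hD).2.2.2
  · intro D hD D' hD' h
    exact eq_of_snd (mem_fam.1 (mem_coe.1 hD)).1 (mem_fam.1 (mem_coe.1 hD')).1 h

open Classical in
theorem fam_split (F A : Finset P) (B : Finset L) (a : P) :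
    (fam F A B).card ≤ (fam F (A.erase a) B).card +
      (fam (insert a F) (A.erase a) (B.filter fun l => a ∉ l)).card := by
  refine le_trans (card_le_card ?_) (card_union_le _ _)
  intro D hD
  obtain ⟨h1, h2, h3, h4⟩ := mem_fam.1 hD
  by_cases ha : a ∈ D.1
  · refine mem_union_right _ (mem_fam.2 ⟨h1, ?_, ?_, ?_⟩)
    · exact insert_subset ha h2
    · intro p hp
      by_cases hpa : p = a
      · rw [hpa]
        exact mem_union_left _ (mem_insert_self _ _)
      · rcases mem_union.1 (h3 hp) with hF | hA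
        · exact mem_union_left _ (mem_insert_of_mem hF)
        · exact mem_union_right _ (mem_erase.2 ⟨hpa, hA⟩)
    · intro l hl
      exact mem_filter.2 ⟨h4 hl, h1.2 a ha l hl⟩
  · refine mem_union_left _ (mem_fam.2 ⟨h1, h2, ?_, h4⟩)
    intro p hp
    have hpa : p ≠ a := fun h => ha (h ▸ hp)
    rcases mem_union.1 (h3 hp) with hF | hA
    · exact mem_union_left _ hF
    · exact mem_union_right _ (mem_erase.2 ⟨hpa, hA⟩)

end rec

theorem fam_rec (hH : S_H) (P L : Type) [Fintype P] [Fintype L] [Membership P L]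
    [ProjectivePlane P L] (q n : ℕ) (hq : q = ProjectivePlane.order P L)
    (hn : n = q ^ 2 + q + 1) (s : ℕ) (hs : 4 * q * n ^ 2 ≤ s ^ 2 * (q + 1) ^ 2) :
    ∀ (k : ℕ) (A : Finset P), A.card = k → ∀ (F : Finset P) (B : Finset L) (j : ℕ),
      (1 - ((q : ℝ) + 1) / (2 * n)) ^ j * (B.card : ℝ) < 1 →
      (fam F A B).card ≤ 2 ^ s * (k + 1) ^ j := by
  classical
  intro k
  induction k with
  | zero =>
    intro A hA F B j _
    refine (fam_le_left F A B).trans ?_
    rw [hA, zero_add, one_pow, mul_one]
    exact Nat.pow_le_pow_right (by norm_num) (Nat.zero_le _)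
  | succ k ih =>
    intro A hA F B j hj
    have hone : 1 ≤ (k + 1 + 1) ^ j := Nat.one_le_pow _ _ (by omega)
    by_cases hsmall : A.card * B.card ≤ s * s
    · have h1 : A.card ≤ s ∨ B.card ≤ s := by
        by_contra h
        push Not at h
        have := Nat.mul_lt_mul'' h.1 h.2
        omega
      rcases h1 with h1 | h1
      · calc (fam F A B).card ≤ 2 ^ A.card := fam_le_left F A B
          _ ≤ 2 ^ s := Nat.pow_le_pow_right (by norm_num) h1
          _ = 2 ^ s * 1 := (mul_one _).symm
          _ ≤ 2 ^ s * (k + 1 + 1) ^ j := Nat.mul_le_mul_left _ hone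
      · calc (fam F A B).card ≤ 2 ^ B.card := fam_le_right F A B
          _ ≤ 2 ^ s := Nat.pow_le_pow_right (by norm_num) h1
          _ = 2 ^ s * 1 := (mul_one _).symm
          _ ≤ 2 ^ s * (k + 1 + 1) ^ j := Nat.mul_le_mul_left _ hone
    · push Not at hsmall
      have hlarge : 4 * q * n ^ 2 < A.card * B.card * (q + 1) ^ 2 := by
        refine lt_of_le_of_lt hs ?_
        rw [sq s]
        exact Nat.mul_lt_mul_of_pos_right hsmall (by positivity)
      obtain ⟨a, ha, hdeg⟩ := hH P L q n hq hn A B hlarge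
      have hAe : (A.erase a).card = k := by
        rw [card_erase_of_mem ha, hA]
        rfl
      have hBpos : 0 < B.card := by
        rcases Nat.eq_zero_or_pos B.card with h | h
        · rw [h, mul_zero] at hsmall
          omega
        · exact h
      obtain ⟨j, rfl⟩ : ∃ j', j = j' + 1 := by
        cases j with
        | zero =>
          exfalso
          rw [pow_zero, one_mul] at hj
          have : (1 : ℝ) ≤ B.card := by exact_mod_cast hBpos
          linarith
        | succ j => exact ⟨j, rfl⟩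
      set θ : ℝ := 1 - ((q : ℝ) + 1) / (2 * n) with hθ
      have hnpos : (0 : ℝ) < n := by
        have : 0 < n := by omega
        exact_mod_cast this
      have hqn : (q : ℝ) + 1 ≤ 2 * n := by
        have : q + 1 ≤ 2 * n := by nlinarith
        exact_mod_cast this
      have hθ0 : 0 ≤ θ := by
        rw [hθ, sub_nonneg, div_le_one (by positivity)]
        exact hqn
      have hcard : ((B.filter fun l => a ∉ l).card : ℝ) ≤ θ * B.card := by
        have h1 : (B.filter fun l => a ∈ l).card + (B.filter fun l => a ∉ l).card = B.card :=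
          card_filter_add_card_filter_not _
        have h2 : ((B.filter fun l => a ∈ l).card : ℝ) + ((B.filter fun l => a ∉ l).card : ℝ) =
            B.card := by exact_mod_cast h1
        have h3 : (B.card : ℝ) * ((q : ℝ) + 1) ≤ 2 * n * ((B.filter fun l => a ∈ l).card : ℝ) := by
          exact_mod_cast hdeg
        have h4 : (B.card : ℝ) * (((q : ℝ) + 1) / (2 * n)) ≤
            ((B.filter fun l => a ∈ l).card : ℝ) := by
          rw [mul_div_assoc', div_le_iff₀ (by positivity)]
          linarith
        rw [hθ]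
        linarith
      have hj' : θ ^ j * ((B.filter fun l => a ∉ l).card : ℝ) < 1 := by
        calc θ ^ j * ((B.filter fun l => a ∉ l).card : ℝ) ≤ θ ^ j * (θ * B.card) :=
              mul_le_mul_of_nonneg_left hcard (pow_nonneg hθ0 _)
          _ = θ ^ (j + 1) * B.card := by ring
          _ < 1 := hj
      have e1 := ih (A.erase a) hAe F B (j + 1) hj
      have e2 := ih (A.erase a) hAe (insert a F) (B.filter fun l => a ∉ l) j hj'
      calc (fam F A B).card ≤ _ := fam_split F A B a
        _ ≤ 2 ^ s * (k + 1) ^ (j + 1) + 2 ^ s * (k + 1) ^ j := Nat.add_le_add e1 e2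
        _ = 2 ^ s * ((k + 1 + 1) * (k + 1) ^ j) := by ring
        _ ≤ 2 ^ s * ((k + 1 + 1) * (k + 1 + 1) ^ j) := by
          gcongr
          omega
        _ = 2 ^ s * (k + 1 + 1) ^ (j + 1) := by ring

theorem r (hH : S_H) : S_R := by
  classical
  intro P L _ _ _ _ q n hq hn s J hs hJ
  have h1 : Fintype.card P = n := by
    rw [ProjectivePlane.card_points P L, hn, hq]
  have h2 : Fintype.card L = n := by
    rw [ProjectivePlane.card_lines P L, hn, hq]
  have h3 : numInd P L = (fam (∅ : Finset P) univ (univ : Finset L)).card := by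
    rw [numInd, ← Set.ncard_coe_finset]
    congr 1
    ext D
    simp [mem_fam]
  rw [h3]
  have h4 := fam_rec hH P L q n hq hn s hs n (univ : Finset P) (by rw [card_univ, h1]) ∅ univ J
    (by rw [card_univ, h2]; exact hJ)
  exact h4

end Pool.Agent.W5h2.DP
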