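import Pool.Agent.W5h2.DP.Defs

/-!
# (V) variance of the intersection numbers
-/

set_option autoImplicit false

namespace Pool.Agent.W5h2.DP

open Finset Configuration

open Classical in
theorem v : S_V := by
  intro P L _ _ _ _ q n hq hn A
  have hcardL : Fintype.card L = n := by
    rw [hn, hq]
    exact ProjectivePlane.card_lines P L
  have hdeg : ∀ p : P, (∑ l : L, if p ∈ l then (1 : ℝ) else 0) = (q : ℝ) + 1 := by
    intro p
    rw [Finset.sum_boole]
    have h1 : lineCount L p = ProjectivePlane.order P L + 1 := ProjectivePlane.lineCount_eq L p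
    have h2 : (univ.filter (fun l : L => p ∈ l)).card = lineCount L p := by
      unfold lineCount
      rw [Nat.card_eq_fintype_card, Fintype.card_subtype]
    rw [h2, h1, ← hq]
    push_cast
    ring
  have hpair : ∀ p p' : P, (∑ l : L, if p ∈ l ∧ p' ∈ l then (1 : ℝ) else 0) =
      if p = p' then (q : ℝ) + 1 else 1 := by
    intro p p'
    split_ifs with h
    · subst h
      rw [← hdeg p]
      simp
    · rw [Finset.sum_boole]
      have h2 : (univ.filter (fun l : L => p ∈ l ∧ p' ∈ l)) = {HasLines.mkLine h} := by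
        ext l
        simp only [mem_filter, mem_univ, true_and, mem_singleton]
        constructor
        · rintro ⟨h1, h2⟩
          have h3 := HasLines.mkLine_ax (L := L) h
          rcases Nondegenerate.eq_or_eq h1 h2 h3.1 h3.2 with h4 | h4
          · exact absurd h4 h
          · exact h4
        · rintro rfl
          exact HasLines.mkLine_ax (L := L) h
      rw [h2]
      simp
  have hd : ∀ l : L, ((A.filter fun p => p ∈ l).card : ℝ) = ∑ p ∈ A, if p ∈ l then (1 : ℝ) else 0 := by
    intro l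
    rw [Finset.sum_boole]
  have S1 : ∑ l : L, ((A.filter fun p => p ∈ l).card : ℝ) = A.card * ((q : ℝ) + 1) := by
    simp_rw [hd]
    rw [Finset.sum_comm]
    simp_rw [hdeg]
    rw [Finset.sum_const, nsmul_eq_mul]
  have S2 : ∑ l : L, ((A.filter fun p => p ∈ l).card : ℝ) ^ 2 = A.card * ((A.card : ℝ) + q) := by
    have h1 : ∀ l : L, ((A.filter fun p => p ∈ l).card : ℝ) ^ 2 =
        ∑ p ∈ A, ∑ p' ∈ A, if p ∈ l ∧ p' ∈ l then (1 : ℝ) else 0 := by
      intro l
      rw [hd, sq, Finset.sum_mul_sum]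
      refine Finset.sum_congr rfl fun p _ => Finset.sum_congr rfl fun p' _ => ?_
      by_cases h : p ∈ l <;> by_cases h' : p' ∈ l <;> simp [h, h']
    simp_rw [h1]
    rw [Finset.sum_comm]
    have h2 : ∀ p ∈ A, ∑ l : L, ∑ p' ∈ A, (if p ∈ l ∧ p' ∈ l then (1 : ℝ) else 0) =
        (A.card : ℝ) + q := by
      intro p hp
      rw [Finset.sum_comm]
      simp_rw [hpair]
      have h3 : ∀ p' ∈ A, (if p = p' then (q : ℝ) + 1 else 1) = (if p = p' then (q : ℝ) else 0) + 1 := by
        intro p' _
        split_ifs <;> ring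
      rw [Finset.sum_congr rfl h3, Finset.sum_add_distrib, Finset.sum_ite_eq, if_pos hp,
        Finset.sum_const, nsmul_eq_mul]
      ring
    rw [Finset.sum_congr rfl h2, Finset.sum_const, nsmul_eq_mul]
  have hexp : ∀ l : L, ((n : ℝ) * ((A.filter fun p => p ∈ l).card : ℝ) - (A.card : ℝ) * ((q : ℝ) + 1)) ^ (2 : ℕ) =
      (n : ℝ) ^ 2 * ((A.filter fun p => p ∈ l).card : ℝ) ^ 2 -
        2 * n * (A.card : ℝ) * ((q : ℝ) + 1) * ((A.filter fun p => p ∈ l).card : ℝ) +
        ((A.card : ℝ) * ((q : ℝ) + 1)) ^ 2 := by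
    intro l
    ring
  simp_rw [hexp]
  rw [Finset.sum_add_distrib, Finset.sum_sub_distrib, ← Finset.mul_sum, ← Finset.mul_sum, S1, S2,
    Finset.sum_const, nsmul_eq_mul, Finset.card_univ, hcardL]
  have hn' : (n : ℝ) = (q : ℝ) ^ 2 + q + 1 := by
    rw [hn]; push_cast; ring
  rw [hn']
  ring

end Pool.Agent.W5h2.DP
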